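import Pool.Agent.Lib_helper61.G5.Lower

/-!
# MP_022ed3_co: the base case `n = 5`: nine points contain a convex pentagon

Combinatorial part: a certified decision tree.
-/

set_option autoImplicit false

namespace Pool.Agent.G5.Base

/-- leaves: violated constraints -/
inductive Leaf where
  | ax (a b c d k : ℕ)
  | cup (a b c d : ℕ)
  | pent (a b c d e k : ℕ)

/-- decision trees -/
inductive Tr where
  | lf (l : Leaf)
  | nd (v : ℕ) (l r : Tr)

/-- index of a triple -/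
def idx (i j k : ℕ) : ℕ := 64 * i + 8 * j + k

def Leaf.ok : Leaf → Bool
  | .ax a b c d k => decide (a < b) && decide (b < c) && decide (c < d) && decide (d < 8) &&
      decide (k < 8)
  | .cup a b c d => decide (a < b) && decide (b < c) && decide (c < d) && decide (d < 8)
  | .pent a b c d e k => decide (a < b) && decide (b < c) && decide (c < d) && decide (d < e) &&
      decide (e < 8) && decide (k < 8)

def Leaf.pat : Leaf → List (ℕ × Bool)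
  | .ax a b c d 0 => [(idx a b c, true), (idx a b d, false), (idx a c d, true)]
  | .ax a b c d 1 => [(idx a b c, false), (idx a b d, true), (idx a c d, false)]
  | .ax a b c d 2 => [(idx a b c, true), (idx a b d, false), (idx b c d, true)]
  | .ax a b c d 3 => [(idx a b c, false), (idx a b d, true), (idx b c d, false)]
  | .ax a b c d 4 => [(idx a b c, true), (idx a c d, false), (idx b c d, true)]
  | .ax a b c d 5 => [(idx a b c, false), (idx a c d, true), (idx b c d, false)]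
  | .ax a b c d 6 => [(idx a b d, true), (idx a c d, false), (idx b c d, true)]
  | .ax a b c d _ => [(idx a b d, false), (idx a c d, true), (idx b c d, false)]
  | .cup a b c d => [(idx a b c, true), (idx b c d, true)]
  | .pent a b c d e 0 => [(idx a b c, true), (idx b c d, true), (idx c d e, true)]
  | .pent a b c d e 1 => [(idx a b e, false), (idx a c d, true), (idx c d e, true)]
  | .pent a b c d e 2 => [(idx a c e, false), (idx a b d, true), (idx b d e, true)]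
  | .pent a b c d e 3 => [(idx a b c, false), (idx b c e, false), (idx a d e, true)]
  | .pent a b c d e 4 => [(idx a d e, false), (idx a b c, true), (idx b c e, true)]
  | .pent a b c d e 5 => [(idx a b d, false), (idx b d e, false), (idx a c e, true)]
  | .pent a b c d e 6 => [(idx a c d, false), (idx c d e, false), (idx a b e, true)]
  | .pent a b c d e _ => [(idx a b c, false), (idx b c d, false), (idx c d e, false)]

/-- checker: `t` are the variables known to be true, `f` those known to be false -/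
def check : Tr → ℕ → ℕ → Bool
  | .lf l, t, f => l.ok && l.pat.all (fun x => if x.2 then t.testBit x.1 else f.testBit x.1)
  | .nd v l r, t, f => check l (t ||| 1 <<< v) f && check r t (f ||| 1 <<< v)

theorem check_sound (s : ℕ → Bool)
    (h : ∀ l : Leaf, l.ok = true → ¬ ∀ x ∈ l.pat, s x.1 = x.2) :
    ∀ (tr : Tr) (t f : ℕ), check tr t f = true →
      (∀ v, t.testBit v = true → s v = true) → (∀ v, f.testBit v = true → s v = false) →
      False := by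
  intro tr
  induction tr with
  | lf l =>
    intro t f hc ht hf
    simp only [check, Bool.and_eq_true, List.all_eq_true] at hc
    refine h l hc.1 ?_
    intro x hx
    have := hc.2 x hx
    by_cases hx2 : x.2 = true
    · rw [if_pos hx2] at this
      rw [ht _ this, hx2]
    · rw [if_neg hx2] at this
      rw [hf _ this]
      simpa using hx2
  | nd v l r ihl ihr =>
    intro t f hc ht hf
    simp only [check, Bool.and_eq_true] at hc
    have hbit : ∀ (x : ℕ) (w : ℕ), (x ||| 1 <<< v).testBit w = true →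
        x.testBit w = true ∨ w = v := by
      intro x w hw
      rw [Nat.testBit_or, Bool.or_eq_true] at hw
      rcases hw with hw | hw
      · exact Or.inl hw
      · right
        rw [Nat.shiftLeft_eq, one_mul, Nat.testBit_two_pow] at hw
        simpa [eq_comm] using hw
    cases hs : s v with
    | true =>
      refine ihl _ _ hc.1 ?_ hf
      intro w hw
      rcases hbit _ _ hw with hw | rfl
      · exact ht w hw
      · exact hs
    | false =>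
      refine ihr _ _ hc.2 ht ?_
      intro w hw
      rcases hbit _ _ hw with hw | rfl
      · exact hf w hw
      · exact hs

/-- the certificate -/
def cert : Tr :=
  (.nd 10 (.nd 83 (.lf (.cup 0 1 2 3)) (.nd 84 (.lf (.cup 0 1 2 4)) (.nd 85 (.lf (.cup 0 1 2 5))
  (.nd 157 (.nd 19 (.lf (.cup 0 2 3 5)) (.nd 238 (.lf (.cup 2 3 5 6)) (.nd 174 (.nd 375 (.lf (.cup
  2 5 6 7)) (.nd 93 (.nd 231 (.lf (.pent 3 4 5 6 7 6)) (.nd 11 (.lf (.cup 0 1 3 5)) (.nd 165 (.nd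
  92 (.nd 302 (.lf (.cup 2 4 5 6)) (.nd 229 (.lf (.cup 1 3 4 5)) (.lf (.pent 3 4 5 6 7 7)))) (.lf
  (.pent 0 1 3 4 7 7))) (.lf (.pent 1 2 3 4 5 5))))) (.lf (.pent 1 3 5 6 7 7)))) (.nd 94 (.lf
  (.pent 1 2 3 5 6 5)) (.nd 102 (.lf (.pent 1 2 4 5 6 5)) (.nd 375 (.nd 302 (.lf (.cup 4 5 6 7))
  (.nd 165 (.nd 303 (.lf (.cup 2 4 5 7)) (.nd 11 (.nd 92 (.lf (.cup 0 1 3 4)) (.nd 229 (.nd 156
  (.lf (.cup 2 3 4 5)) (.nd 12 (.lf (.pent 0 1 2 3 4 6)) (.nd 230 (.nd 311 (.lf (.cup 3 4 6 7))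
  (.lf (.pent 0 1 4 6 7 7))) (.lf (.pent 0 2 3 4 6 7))))) (.lf (.pent 1 3 4 5 6 7)))) (.nd 247
  (.nd 229 (.nd 28 (.lf (.cup 0 3 4 5)) (.nd 92 (.lf (.cup 1 3 4 5)) (.nd 12 (.lf (.ax 0 1 3 4 1))
  (.nd 230 (.nd 311 (.lf (.cup 3 4 6 7)) (.lf (.pent 0 1 4 6 7 7))) (.lf (.pent 0 1 3 4 6 7))))))
  (.lf (.pent 3 4 5 6 7 3))) (.lf (.pent 0 1 3 6 7 7))))) (.lf (.pent 1 2 4 5 6 7)))) (.lf (.pent
  1 2 5 6 7 7)))))))) (.nd 101 (.lf (.pent 1 2 3 4 5 3)) (.nd 238 (.nd 239 (.nd 375 (.lf (.cup 3 5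
  6 7)) (.nd 302 (.nd 229 (.lf (.cup 3 4 5 6)) (.nd 156 (.nd 19 (.lf (.cup 0 2 3 4)) (.nd 230 (.lf
  (.cup 2 3 4 6)) (.nd 13 (.lf (.pent 0 1 2 3 5 6)) (.nd 311 (.nd 110 (.nd 166 (.lf (.cup 2 4 6
  7)) (.lf (.pent 1 2 4 5 6 3))) (.lf (.pent 0 1 5 6 7 7))) (.lf (.pent 3 4 5 6 7 5)))))) (.lf
  (.pent 1 2 3 4 5 7)))) (.lf (.pent 1 4 5 6 7 7)))) (.lf (.pent 1 2 3 5 7 7))) (.lf (.pent 1 2 3
  5 6 7)))))))) (.nd 84 (.nd 165 (.lf (.cup 1 2 4 5)) (.nd 166 (.lf (.cup 1 2 4 6)) (.nd 83 (.nd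
  156 (.lf (.cup 1 2 3 4)) (.nd 157 (.lf (.cup 1 2 3 5)) (.nd 229 (.nd 92 (.lf (.cup 1 3 4 5))
  (.nd 302 (.lf (.cup 3 4 5 6)) (.nd 303 (.lf (.cup 3 4 5 7)) (.nd 20 (.nd 375 (.nd 183 (.lf
  (.pent 2 4 5 6 7 3)) (.nd 11 (.nd 238 (.lf (.cup 3 5 6 7)) (.nd 86 (.nd 93 (.lf (.cup 0 1 3 5))
  (.lf (.pent 1 2 3 5 6 6))) (.lf (.pent 0 1 2 6 7 7)))) (.lf (.pent 0 1 2 3 4 5)))) (.lf (.pent 2
  4 5 6 7 7))) (.lf (.pent 0 2 4 5 6 7)))))) (.nd 302 (.nd 375 (.lf (.cup 4 5 6 7)) (.nd 238 (.nd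
  93 (.lf (.cup 1 3 5 6)) (.nd 11 (.nd 92 (.lf (.cup 0 1 3 4)) (.nd 85 (.lf (.pent 1 2 3 4 5 6))
  (.nd 174 (.nd 175 (.nd 230 (.nd 311 (.lf (.cup 3 4 6 7)) (.lf (.pent 2 4 5 6 7 5))) (.lf (.pent
  2 3 4 5 6 3))) (.lf (.pent 0 1 2 5 7 7))) (.lf (.pent 0 1 2 5 6 7))))) (.nd 21 (.lf (.pent 0 1 2
  3 5 5)) (.nd 92 (.nd 174 (.nd 230 (.lf (.cup 1 3 4 6)) (.lf (.pent 2 3 4 5 6 3))) (.lf (.pent 0
  2 5 6 7 7))) (.lf (.pent 0 1 3 4 5 7)))))) (.lf (.pent 2 3 5 6 7 7)))) (.lf (.pent 2 3 4 5 6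
  7)))))) (.nd 157 (.nd 158 (.nd 159 (.nd 238 (.lf (.cup 2 3 5 6)) (.nd 302 (.nd 311 (.nd 375 (.lf
  (.cup 4 5 6 7)) (.nd 102 (.lf (.cup 1 4 6 7)) (.nd 29 (.nd 174 (.nd 85 (.lf (.pent 1 2 4 5 6 2))
  (.lf (.pent 0 1 2 3 5 3))) (.lf (.pent 2 3 5 6 7 6))) (.lf (.pent 0 3 5 6 7 7))))) (.lf (.pent 2
  3 4 6 7 6))) (.lf (.pent 2 3 4 5 6 6)))) (.lf (.pent 0 1 2 3 7 7))) (.lf (.pent 0 1 2 3 6 7)))
  (.lf (.pent 0 1 2 3 5 7)))))) (.nd 28 (.lf (.pent 0 1 2 3 4 3)) (.nd 165 (.nd 166 (.nd 167 (.nd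
  302 (.lf (.cup 2 4 5 6)) (.nd 229 (.nd 156 (.lf (.cup 2 3 4 5)) (.nd 83 (.nd 157 (.lf (.cup 1 2
  3 5)) (.nd 158 (.lf (.cup 1 2 3 6)) (.nd 238 (.nd 247 (.nd 375 (.lf (.cup 3 5 6 7)) (.nd 94 (.lf
  (.cup 1 3 6 7)) (.nd 37 (.nd 174 (.nd 85 (.lf (.pent 1 2 3 5 6 2)) (.lf (.pent 0 1 2 4 5 3)))
  (.lf (.pent 2 4 5 6 7 6))) (.lf (.pent 0 4 5 6 7 7))))) (.lf (.pent 2 3 4 6 7 5))) (.lf (.pent 2
  3 4 5 6 5))))) (.lf (.pent 0 1 2 3 4 7)))) (.lf (.pent 0 3 4 5 6 7)))) (.lf (.pent 0 1 2 4 7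
  7))) (.lf (.pent 0 1 2 4 6 7))) (.lf (.pent 0 1 2 4 5 7))))))

theorem cert_ok : check cert 0 0 = true := by decide +kernel

theorem no_sig (s : ℕ → Bool)
    (h : ∀ l : Leaf, l.ok = true → ¬ ∀ x ∈ l.pat, s x.1 = x.2) : False :=
  check_sound s h cert 0 0 cert_ok (by intro v hv; simp at hv) (by intro v hv; simp at hv)

end Pool.Agent.G5.Base
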