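import Pool.Agent.Lib_helper61.G5.Planar

/-!
# MP_022ed3_co: common planar library
-/

set_option autoImplicit false

namespace Pool.Agent.G5.Core

open Pool.Agent.G5.Lower Pool.Agent.G5.Planar

/-- general position -/
def Gen (A : Finset (ℝ × ℝ)) : Prop :=
  ∀ a ∈ A, ∀ b ∈ A, ∀ c ∈ A, a ≠ b → a ≠ c → b ≠ c → dt a b c ≠ 0

/-- extreme points of the hull of a finite set -/
def ExtP (S : Finset (ℝ × ℝ)) (x : ℝ × ℝ) : Prop :=
  x ∈ Set.extremePoints ℝ (convexHull ℝ (S : Set (ℝ × ℝ)))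

/-- every subset with at least `m + 1` points has at most four hull vertices -/
def Thin (m : ℕ) (P : Finset (ℝ × ℝ)) : Prop :=
  ∀ S ⊆ P, m + 1 ≤ S.card →
    (Set.extremePoints ℝ (convexHull ℝ (S : Set (ℝ × ℝ)))).ncard ≤ 4

/-- signed orientation (`s = 1` or `s = -1`) -/
def D (s : ℝ) (a b c : ℝ × ℝ) : ℝ := s * dt a b c

section basic

variable {s : ℝ} {S P : Finset (ℝ × ℝ)} {x y z p q u v : ℝ × ℝ}

lemma D_cyc (s : ℝ) (a b c : ℝ × ℝ) : D s b c a = D s a b c := by
  unfold D; rw [dt_cyc]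
lemma D_cyc' (s : ℝ) (a b c : ℝ × ℝ) : D s c a b = D s a b c := by
  unfold D; rw [dt_cyc']
lemma D_swap (s : ℝ) (a b c : ℝ × ℝ) : D s b a c = - D s a b c := by
  unfold D; rw [dt_swap]; ring
lemma D_swap' (s : ℝ) (a b c : ℝ × ℝ) : D s a c b = - D s a b c := by
  unfold D; rw [dt_swap']; ring
lemma D_swap13 (s : ℝ) (a b c : ℝ × ℝ) : D s c b a = - D s a b c := by
  unfold D dt; ring
lemma D_neg (s : ℝ) (a b c : ℝ × ℝ) : D (-s) a b c = - D s a b c := by
  unfold D; ring
@[simp] lemma D_self12 (s : ℝ) (a c : ℝ × ℝ) : D s a a c = 0 := by unfold D dt; ring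
@[simp] lemma D_self13 (s : ℝ) (a c : ℝ × ℝ) : D s a c a = 0 := by unfold D dt; ring
@[simp] lemma D_self23 (s : ℝ) (a c : ℝ × ℝ) : D s a c c = 0 := by unfold D dt; ring

lemma D_ne {s : ℝ} {a b c : ℝ × ℝ} (h : D s a b c ≠ 0) : a ≠ b ∧ a ≠ c ∧ b ≠ c := by
  refine ⟨?_, ?_, ?_⟩ <;> rintro rfl <;> simp at h

lemma Gen.D_ne (hg : Gen P) (hs : s ≠ 0) {a b c : ℝ × ℝ} (ha : a ∈ P) (hb : b ∈ P) (hc : c ∈ P)
    (hab : a ≠ b) (hac : a ≠ c) (hbc : b ≠ c) : D s a b c ≠ 0 :=
  mul_ne_zero hs (hg a ha b hb c hc hab hac hbc)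

lemma Gen.mono (hg : Gen P) (h : S ⊆ P) : Gen S :=
  fun a ha b hb c hc => hg a (h ha) b (h hb) c (h hc)

lemma Thin.mono {m : ℕ} (ht : Thin m P) (h : S ⊆ P) : Thin m S :=
  fun T hT hc => ht T (hT.trans h) hc

lemma ExtP.mem (h : ExtP S x) : x ∈ S := by
  have := extremePoints_convexHull_subset h
  exact this

lemma ExtP.mono (h : ExtP P x) (hx : x ∈ S) (hS : S ⊆ P) : ExtP S x := by
  have h1 : convexHull ℝ (S : Set (ℝ × ℝ)) ⊆ convexHull ℝ (P : Set (ℝ × ℝ)) :=
    convexHull_mono (by exact_mod_cast hS)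
  exact inter_extremePoints_subset_extremePoints_of_subset h1
    ⟨subset_convexHull ℝ _ (by exact_mod_cast hx), h⟩

/-- a linear functional attains its minimum at an extreme point -/
lemma exists_ext_min (hS : S.Nonempty) (f : (ℝ × ℝ) →ₗ[ℝ] ℝ) :
    ∃ e, ExtP S e ∧ ∀ y ∈ S, f e ≤ f y := by
  classical
  -- lexicographic minimum for `f`, then for the first two coordinates
  obtain ⟨m0, hm0, hmin0⟩ := S.exists_min_image (fun q => f q) hS
  set S1 := S.filter (fun q => f q = f m0) with hS1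
  have hne1 : S1.Nonempty := ⟨m0, by simp [hS1, hm0]⟩
  obtain ⟨m1, hm1, hmin1⟩ := S1.exists_min_image (fun q => q.1) hne1
  set S2 := S1.filter (fun q => q.1 = m1.1) with hS2
  have hne2 : S2.Nonempty := ⟨m1, by rw [hS2, Finset.mem_filter]; exact ⟨hm1, rfl⟩⟩
  obtain ⟨e, he, hmin2⟩ := S2.exists_min_image (fun q => q.2) hne2
  have he1 : e ∈ S1 := (Finset.mem_filter.1 he).1
  have he1' : e.1 = m1.1 := (Finset.mem_filter.1 he).2
  have heS : e ∈ S := (Finset.mem_filter.1 he1).1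
  have hef : f e = f m0 := (Finset.mem_filter.1 he1).2
  refine ⟨e, ?_, fun y hy => by rw [hef]; exact hmin0 y hy⟩
  -- perturbation `f + t * fst + t ^ 2 * snd`
  have hev : ∀ y ∈ S, ∀ᶠ t : ℝ in nhdsWithin 0 (Set.Ioi 0),
      (y ≠ e → 0 < (f y - f e) + t * (y.1 - e.1) + t ^ 2 * (y.2 - e.2)) := by
    intro y hy
    by_cases hye : y = e
    · exact Filter.Eventually.of_forall fun t h => absurd hye h
    rcases (hmin0 y hy).lt_or_eq with hlt | heq
    · have hlt' : 0 < f y - f e := by rw [hef]; linarith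
      have hcont : Filter.Tendsto
          (fun t : ℝ => (f y - f e) + t * (y.1 - e.1) + t ^ 2 * (y.2 - e.2)) (nhds 0)
          (nhds ((f y - f e) + 0 * (y.1 - e.1) + 0 ^ 2 * (y.2 - e.2))) := by
        apply Continuous.tendsto
        fun_prop
      have h0 : (f y - f e) + 0 * (y.1 - e.1) + 0 ^ 2 * (y.2 - e.2) = f y - f e := by ring
      rw [h0] at hcont
      have := hcont.eventually (lt_mem_nhds hlt')
      exact (this.filter_mono nhdsWithin_le_nhds).mono fun t ht _ => ht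
    · have hy1 : y ∈ S1 := by rw [hS1, Finset.mem_filter]; exact ⟨hy, heq.symm⟩
      have hfy : f y - f e = 0 := by rw [hef]; linarith
      rcases (hmin1 y hy1).lt_or_eq with hlt | heq1
      · have hlt' : 0 < y.1 - e.1 := by rw [he1']; linarith
        have hcont : Filter.Tendsto
            (fun t : ℝ => (y.1 - e.1) + t * (y.2 - e.2)) (nhds 0)
            (nhds ((y.1 - e.1) + 0 * (y.2 - e.2))) := by
          apply Continuous.tendsto
          fun_prop
        rw [zero_mul, add_zero] at hcont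
        have h2 := hcont.eventually (lt_mem_nhds hlt')
        have h3 := h2.filter_mono (nhdsWithin_le_nhds (s := Set.Ioi 0))
        filter_upwards [h3, self_mem_nhdsWithin] with t ht1 ht2 _
        have : (f y - f e) + t * (y.1 - e.1) + t ^ 2 * (y.2 - e.2) =
            t * ((y.1 - e.1) + t * (y.2 - e.2)) := by rw [hfy]; ring
        rw [this]
        exact mul_pos ht2 ht1
      · have hy2 : y ∈ S2 := by rw [hS2, Finset.mem_filter]; exact ⟨hy1, heq1.symm⟩
        have h2 := hmin2 y hy2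
        have h1 : y.1 = e.1 := by rw [he1']; exact heq1.symm
        have h3 : e.2 < y.2 := by
          rcases h2.lt_or_eq with h | h
          · exact h
          · exact absurd (Prod.ext h1 h.symm) hye
        filter_upwards [self_mem_nhdsWithin] with t ht _
        have : (f y - f e) + t * (y.1 - e.1) + t ^ 2 * (y.2 - e.2) =
            t ^ 2 * (y.2 - e.2) := by rw [hfy, h1]; ring
        rw [this]
        exact mul_pos (pow_pos ht 2) (sub_pos.2 h3)
  obtain ⟨t, ht⟩ := ((Finset.eventually_all S).2 hev).exists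
  apply mem_extreme_of_lt heS (f + t • LinearMap.fst ℝ ℝ ℝ + t ^ 2 • LinearMap.snd ℝ ℝ ℝ)
  intro y hy hye
  have := ht y hy hye
  simp only [LinearMap.add_apply, LinearMap.smul_apply, LinearMap.fst_apply,
    LinearMap.snd_apply, smul_eq_mul]
  linarith

/-- the linear part of `D s u v ·` -/
def Dlin (s : ℝ) (u v : ℝ × ℝ) : (ℝ × ℝ) →ₗ[ℝ] ℝ := s • lin u v

lemma Dlin_sub (s : ℝ) (u v x y : ℝ × ℝ) : Dlin s u v x - Dlin s u v y = D s u v x - D s u v y := by
  have := lin_sub u v x y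
  simp only [Dlin, LinearMap.smul_apply, smul_eq_mul, D]
  rw [← mul_sub, this]; ring

/-- `EXT`: a point strictly on the negative side gives an extreme point there which is
minimal -/
lemma exists_ext_neg (hx : x ∈ S) (h : D s u v x < 0) :
    ∃ e, ExtP S e ∧ D s u v e < 0 := by
  obtain ⟨e, he, hmin⟩ := exists_ext_min ⟨x, hx⟩ (Dlin s u v)
  refine ⟨e, he, ?_⟩
  have h1 := hmin x hx
  have h2 := Dlin_sub s u v x e
  linarith

lemma exists_ext_pos (hx : x ∈ S) (h : 0 < D s u v x) :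
    ∃ e, ExtP S e ∧ 0 < D s u v e := by
  have h' : D (-s) u v x < 0 := by rw [D_neg]; linarith
  obtain ⟨e, he, h2⟩ := exists_ext_neg hx h'
  exact ⟨e, he, by rw [D_neg] at h2; linarith⟩

/-- `EDGE` -/
lemma edge_ext (hp : p ∈ S) (hq : q ∈ S) (hpq : p ≠ q)
    (h : ∀ z ∈ S, z ≠ p → z ≠ q → 0 < D s p q z) : ExtP S p := by
  -- perturbation `D s p q · + t * <· - p, q - p>`
  set g : (ℝ × ℝ) →ₗ[ℝ] ℝ :=
    (q.1 - p.1) • LinearMap.fst ℝ ℝ ℝ + (q.2 - p.2) • LinearMap.snd ℝ ℝ ℝ with hg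
  have hgq : 0 < g q - g p := by
    simp only [hg, LinearMap.add_apply, LinearMap.smul_apply, LinearMap.fst_apply,
      LinearMap.snd_apply, smul_eq_mul]
    have : p.1 ≠ q.1 ∨ p.2 ≠ q.2 := by
      by_contra hcon
      push Not at hcon
      exact hpq (Prod.ext hcon.1 hcon.2)
    rcases this with h1 | h1
    · nlinarith [sq_pos_of_ne_zero (sub_ne_zero.2 h1), sq_nonneg (p.2 - q.2)]
    · nlinarith [sq_pos_of_ne_zero (sub_ne_zero.2 h1), sq_nonneg (p.1 - q.1)]
  have hev : ∀ y ∈ S, ∀ᶠ t : ℝ in nhdsWithin 0 (Set.Ioi 0),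
      (y ≠ p → 0 < (D s p q y - D s p q p) + t * (g y - g p)) := by
    intro y hy
    by_cases hyp : y = p
    · exact Filter.Eventually.of_forall fun t h => absurd hyp h
    by_cases hyq : y = q
    · subst hyq
      filter_upwards [self_mem_nhdsWithin] with t ht _
      simp only [D_self23, D_self13, sub_self, zero_add]
      exact mul_pos ht hgq
    · have hlt' : 0 < D s p q y - D s p q p := by
        have := h y hy hyp hyq
        simpa using this
      have hcont : Filter.Tendsto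
          (fun t : ℝ => (D s p q y - D s p q p) + t * (g y - g p)) (nhds 0)
          (nhds ((D s p q y - D s p q p) + 0 * (g y - g p))) := by
        apply Continuous.tendsto
        fun_prop
      rw [zero_mul, add_zero] at hcont
      have := hcont.eventually (lt_mem_nhds hlt')
      exact (this.filter_mono nhdsWithin_le_nhds).mono fun t ht _ => ht
  obtain ⟨t, ht⟩ := ((Finset.eventually_all S).2 hev).exists
  apply mem_extreme_of_lt hp (Dlin s p q + t • g)
  intro y hy hyp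
  have h1 := ht y hy hyp
  have h2 := Dlin_sub s p q y p
  simp only [LinearMap.add_apply, LinearMap.smul_apply, smul_eq_mul]
  linarith

lemma edge_ext' (hp : p ∈ S) (hq : q ∈ S) (hpq : p ≠ q)
    (h : ∀ z ∈ S, z ≠ p → z ≠ q → 0 < D s p q z) : ExtP S q := by
  apply edge_ext (s := -s) hq hp hpq.symm
  intro z hz h1 h2
  have := h z hz h2 h1
  rw [D_neg, D_swap]; linarith

end basic

section tools

variable {s : ℝ} {m : ℕ} {S P : Finset (ℝ × ℝ)} {p q b x y : ℝ × ℝ}

/-- `FIRST HIT`: rotate a line about `q`, starting at `q b`, until it hits a point of `Z` -/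
lemma first_hit {Z : Finset (ℝ × ℝ)} (hZ : Z.Nonempty) (hf : ∀ z ∈ Z, D s q b z ≠ 0)
    (hg : ∀ z ∈ Z, ∀ w ∈ Z, z ≠ w → D s q z w ≠ 0) :
    ∃ e ∈ Z, ∀ z ∈ Z, z ≠ e → 0 < D s q e z * (D s q b e * D s q b z) := by
  set h : ℝ × ℝ → ℝ := fun z => (z.1 - q.1) * (b.1 - q.1) + (z.2 - q.2) * (b.2 - q.2) with hh
  obtain ⟨e, he, hmax⟩ := Z.exists_max_image (fun z => h z / D s q b z) hZ
  refine ⟨e, he, ?_⟩
  intro z hz hze
  have hqb : q ≠ b := (D_ne (hf e he)).1
  set N : ℝ := (b.1 - q.1) ^ 2 + (b.2 - q.2) ^ 2 with hN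
  have hNpos : 0 < N := by
    have : q.1 ≠ b.1 ∨ q.2 ≠ b.2 := by
      by_contra hcon
      push Not at hcon
      exact hqb (Prod.ext hcon.1 hcon.2)
    rcases this with h1 | h1
    · have := sq_pos_of_ne_zero (sub_ne_zero.2 h1)
      rw [hN]; nlinarith [sq_nonneg (b.2 - q.2)]
    · have := sq_pos_of_ne_zero (sub_ne_zero.2 h1)
      rw [hN]; nlinarith [sq_nonneg (b.1 - q.1)]
  have hid : D s q e z * N = h e * D s q b z - h z * D s q b e := by
    simp only [hh, hN, D, dt]; ring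
  have hle := hmax z hz
  have hFe := hf e he
  have hFz := hf z hz
  have h1 : 0 ≤ D s q e z * (D s q b e * D s q b z) * N := by
    have : D s q e z * (D s q b e * D s q b z) * N =
        (D s q b e) ^ 2 * (D s q b z) ^ 2 * (h e / D s q b e - h z / D s q b z) := by
      have : D s q e z * (D s q b e * D s q b z) * N =
        (D s q e z * N) * (D s q b e * D s q b z) := by ring
      rw [this, hid]
      field_simp
    rw [this]
    apply mul_nonneg (mul_nonneg (sq_nonneg _) (sq_nonneg _))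
    linarith
  have h2 : D s q e z * (D s q b e * D s q b z) ≠ 0 :=
    mul_ne_zero (hg e he z hz hze.symm) (mul_ne_zero hFe hFz)
  have h3 : 0 ≤ D s q e z * (D s q b e * D s q b z) := by
    by_contra hcon
    have := mul_neg_of_neg_of_pos (not_le.1 hcon) hNpos
    linarith
  exact lt_of_le_of_ne h3 h2.symm

/-- the other direction of rotation -/
lemma first_hit' {Z : Finset (ℝ × ℝ)} (hZ : Z.Nonempty) (hf : ∀ z ∈ Z, D s q b z ≠ 0)
    (hg : ∀ z ∈ Z, ∀ w ∈ Z, z ≠ w → D s q z w ≠ 0) :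
    ∃ e ∈ Z, ∀ z ∈ Z, z ≠ e → D s q e z * (D s q b e * D s q b z) < 0 := by
  obtain ⟨e, he, h⟩ := first_hit (s := -s) hZ
    (fun z hz => by rw [D_neg]; exact neg_ne_zero.2 (hf z hz))
    (fun z hz w hw hzw => by rw [D_neg]; exact neg_ne_zero.2 (hg z hz w hw hzw))
  refine ⟨e, he, fun z hz hze => ?_⟩
  have := h z hz hze
  simp only [D_neg] at this
  linarith

/-- the closed sides of a line through two points -/
lemma card_sides [DecidableEq (ℝ × ℝ)] (hg : Gen P) (hs : s ≠ 0) (hp : p ∈ P) (hq : q ∈ P)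
    (hpq : p ≠ q) :
    (P.filter (fun z => 0 ≤ D s p q z)).card + (P.filter (fun z => D s p q z ≤ 0)).card =
      P.card + 2 := by
  classical
  rw [← Finset.card_union_add_card_inter]
  have h1 : P.filter (fun z => 0 ≤ D s p q z) ∪ P.filter (fun z => D s p q z ≤ 0) = P := by
    ext z
    simp only [Finset.mem_union, Finset.mem_filter]
    constructor
    · rintro (h | h) <;> exact h.1
    · intro h
      rcases le_total 0 (D s p q z) with h' | h'
      · exact Or.inl ⟨h, h'⟩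
      · exact Or.inr ⟨h, h'⟩
  have h2 : P.filter (fun z => 0 ≤ D s p q z) ∩ P.filter (fun z => D s p q z ≤ 0) = {p, q} := by
    ext z
    simp only [Finset.mem_inter, Finset.mem_filter, Finset.mem_insert, Finset.mem_singleton]
    constructor
    · rintro ⟨⟨hz, h1⟩, ⟨_, h2⟩⟩
      by_contra hcon
      push Not at hcon
      exact hg.D_ne hs hp hq hz hpq hcon.1.symm hcon.2.symm (le_antisymm h2 h1)
    · rintro (rfl | rfl)
      · exact ⟨⟨hp, by simp⟩, ⟨hp, by simp⟩⟩
      · exact ⟨⟨hq, by simp⟩, ⟨hq, by simp⟩⟩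
  rw [h1, h2, Finset.card_pair hpq]

/-- five distinct extreme points are impossible in a large subset of a thin set -/
lemma five_false {e1 e2 e3 e4 e5 : ℝ × ℝ}
    (h4 : (Set.extremePoints ℝ (convexHull ℝ (S : Set (ℝ × ℝ)))).ncard ≤ 4)
    (h1 : ExtP S e1) (h2 : ExtP S e2) (h3 : ExtP S e3) (h4' : ExtP S e4) (h5 : ExtP S e5)
    (hnd : [e1, e2, e3, e4, e5].Nodup) : False := by
  classical
  have h := le_ncard_extreme (S := S) (T := [e1, e2, e3, e4, e5].toFinset) (by
    intro x hx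
    simp only [List.mem_toFinset, List.mem_cons, List.not_mem_nil, or_false] at hx
    rcases hx with rfl | rfl | rfl | rfl | rfl
    · exact h1
    · exact h2
    · exact h3
    · exact h4'
    · exact h5)
  rw [List.toFinset_card_of_nodup hnd] at h
  simp at h
  omega

lemma Thin.five {e1 e2 e3 e4 e5 : ℝ × ℝ} (ht : Thin m P) (hS : S ⊆ P) (hc : m + 1 ≤ S.card)
    (h1 : ExtP S e1) (h2 : ExtP S e2) (h3 : ExtP S e3) (h4' : ExtP S e4) (h5 : ExtP S e5)
    (hnd : [e1, e2, e3, e4, e5].Nodup) : False :=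
  five_false (ht S hS hc) h1 h2 h3 h4' h5 hnd

/-- the next hull vertex -/
lemma next_vertex (hg : Gen S) (hs : s ≠ 0) (hx : x ∈ S) (hy : y ∈ S) (hxy : x ≠ y)
    (h : ∀ w ∈ S, w ≠ x → w ≠ y → 0 < D s y x w) :
    ∃ z ∈ S, z ≠ x ∧ ∀ w ∈ S, w ≠ x → w ≠ z → 0 < D s x z w := by
  classical
  by_cases hZ : ((S.erase x).erase y).Nonempty
  · have hmem : ∀ z, z ∈ (S.erase x).erase y ↔ z ≠ y ∧ z ≠ x ∧ z ∈ S := by
      intro z; simp only [Finset.mem_erase]
    obtain ⟨e, he, hmax⟩ := first_hit (s := s) (q := x) (b := y) hZ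
      (fun z hz => by
        rw [hmem] at hz
        exact hg.D_ne hs hx hy hz.2.2 hxy hz.2.1.symm hz.1.symm)
      (fun z hz w hw hzw => by
        rw [hmem] at hz hw
        exact hg.D_ne hs hx hz.2.2 hw.2.2 hz.2.1.symm hw.2.1.symm hzw)
    rw [hmem] at he
    have hfe : D s x y e < 0 := by
      have := h e he.2.2 he.2.1 he.1
      rw [D_swap]; linarith
    refine ⟨e, he.2.2, he.2.1, ?_⟩
    intro w hw hwx hwe
    by_cases hwy : w = y
    · rw [hwy]
      have := D_swap' s x y e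
      linarith
    · have hfw : D s x y w < 0 := by
        have := h w hw hwx hwy
        rw [D_swap]; linarith
      have h1 := hmax w ((hmem w).2 ⟨hwy, hwx, hw⟩) hwe
      exact (pos_iff_pos_of_mul_pos h1).2 (mul_pos_of_neg_of_neg hfe hfw)
  · refine ⟨y, hy, hxy.symm, ?_⟩
    intro w hw hwx hwy
    exfalso
    apply hZ
    exact ⟨w, by simp [hw, hwx, hwy]⟩

/-- Grassmann–Plücker -/
lemma gp (s : ℝ) (a b x y z : ℝ × ℝ) :
    D s a b y * D s b x z = D s a b x * D s b y z + D s a b z * D s b x y := by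
  simp only [D, dt]; ring

/-- transitivity around `b` -/
lemma trans_pos {s : ℝ} {a b x y z : ℝ × ℝ} (hx : 0 < D s a b x) (hy : 0 < D s a b y)
    (hz : 0 ≤ D s a b z) (h1 : 0 < D s b x y) (h2 : 0 < D s b y z) : 0 < D s b x z := by
  have h := gp s a b x y z
  have h3 : 0 < D s a b x * D s b y z := mul_pos hx h2
  have h4 : 0 ≤ D s a b z * D s b x y := mul_nonneg hz h1.le
  have h5 : 0 < D s a b y * D s b x z := by linarith
  exact (pos_iff_pos_of_mul_pos h5).1 hy

lemma trans_pos' {s : ℝ} {a b x y z : ℝ × ℝ} (hx : 0 ≤ D s a b x) (hy : 0 < D s a b y)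
    (hz : 0 < D s a b z) (h1 : 0 < D s b x y) (h2 : 0 < D s b y z) : 0 < D s b x z := by
  have h := gp s a b x y z
  have h3 : 0 ≤ D s a b x * D s b y z := mul_nonneg hx h2.le
  have h4 : 0 < D s a b z * D s b x y := mul_pos hz h1
  have h5 : 0 < D s a b y * D s b x z := by linarith
  exact (pos_iff_pos_of_mul_pos h5).1 hy

end tools

end Pool.Agent.G5.Core
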