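import Pool.Agent.Lib_helper61.G5.Planar
import Pool.Agent.Lib_helper61.G5.Base

/-!
# MP_022ed3_co: nine points in general position contain a convex pentagon
-/

set_option autoImplicit false
set_option synthInstance.maxHeartbeats 400000
set_option synthInstance.maxSize 4096

namespace Pool.Agent.G5.Nine

open Pool.Agent.G5.Lower Pool.Agent.G5.Planar Pool.Agent.G5.Base

section gp
variable (p a b c d : ℝ × ℝ)

lemma gp1 : dt p a d * dt a b c - dt p a c * dt a b d + dt p a b * dt a c d = 0 := by
  unfold dt; ring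
lemma gp2 : dt p b d * dt a b c - dt p b c * dt a b d + dt p a b * dt b c d = 0 := by
  unfold dt; ring
lemma gp3 : dt p c d * dt a b c - dt p b c * dt a c d + dt p a c * dt b c d = 0 := by
  unfold dt; ring
lemma gp4 : dt p c d * dt a b d - dt p b d * dt a c d + dt p a d * dt b c d = 0 := by
  unfold dt; ring

end gp

/-- a functional which is strictly minimal at a point of a finite set -/
lemma exists_min (A : Finset (ℝ × ℝ)) (hA : A.Nonempty) :
    ∃ p ∈ A, ∃ t : ℝ, ∀ q ∈ A, q ≠ p → 0 < (q.1 - p.1) + t * (q.2 - p.2) := by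
  classical
  -- lexicographic minimum
  obtain ⟨m, hm, hmin⟩ := A.exists_min_image (fun q => q.1) hA
  have hne : (A.filter (fun q => q.1 = m.1)).Nonempty := ⟨m, by simp [hm]⟩
  obtain ⟨p, hp, hpmin⟩ := (A.filter (fun q => q.1 = m.1)).exists_min_image (fun q => q.2) hne
  rw [Finset.mem_filter] at hp
  refine ⟨p, hp.1, ?_⟩
  have hev : ∀ q ∈ A, ∀ᶠ t : ℝ in nhdsWithin 0 (Set.Ioi 0),
      (q ≠ p → 0 < (q.1 - p.1) + t * (q.2 - p.2)) := by
    intro q hq
    by_cases hqp : q = p
    · exact Filter.Eventually.of_forall fun t h => absurd hqp h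
    rcases (hmin q hq).lt_or_eq with hlt | heq
    · have hlt' : 0 < q.1 - p.1 := by rw [hp.2]; linarith
      have hcont : Filter.Tendsto (fun t : ℝ => (q.1 - p.1) + t * (q.2 - p.2)) (nhds 0)
          (nhds ((q.1 - p.1) + 0 * (q.2 - p.2))) := by
        apply Continuous.tendsto
        fun_prop
      rw [zero_mul, add_zero] at hcont
      have := hcont.eventually (lt_mem_nhds hlt')
      exact (this.filter_mono nhdsWithin_le_nhds).mono fun t ht _ => ht
    · have hq' : q ∈ A.filter (fun q => q.1 = m.1) := by simp [hq, heq]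
      have h2 := hpmin q hq'
      have h1 : q.1 = p.1 := by rw [hp.2]; exact heq.symm
      have h3 : p.2 < q.2 := by
        rcases h2.lt_or_eq with h | h
        · exact h
        · exact absurd (Prod.ext h1 h.symm) hqp
      filter_upwards [self_mem_nhdsWithin] with t ht _
      rw [h1, sub_self, zero_add]
      exact mul_pos ht (sub_pos.2 h3)
  have hall := (Filter.eventually_all_finset A).2 hev
  obtain ⟨t, ht⟩ := hall.exists
  exact ⟨t, ht⟩

/-- radial enumeration around a hull vertex -/
theorem radial (A : Finset (ℝ × ℝ)) (m : ℕ) (hA : A.card = m + 1)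
    (hgp : ∀ a ∈ A, ∀ b ∈ A, ∀ c ∈ A, a ≠ b → a ≠ c → b ≠ c → dt a b c ≠ 0) :
    ∃ p ∈ A, ∃ q : Fin m → ℝ × ℝ, (∀ i, q i ∈ A ∧ q i ≠ p) ∧
      (∀ i j, i < j → 0 < dt p (q i) (q j)) := by
  classical
  obtain ⟨p, hp, t, ht⟩ := exists_min A (Finset.card_pos.1 (by omega))
  refine ⟨p, hp, ?_⟩
  set f : ℝ × ℝ → ℝ := fun q => (q.1 - p.1) + t * (q.2 - p.2) with hf
  set g : ℝ × ℝ → ℝ := fun q => (q.2 - p.2) / f q with hg
  have hgd : ∀ a b : ℝ × ℝ, 0 < f a → 0 < f b → g b - g a = dt p a b / (f a * f b) := by
    intro a b ha hb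
    rw [hg]
    simp only
    rw [div_sub_div _ _ hb.ne' ha.ne', mul_comm (f b) (f a)]
    congr 1
    simp only [hf, dt]; ring
  set B := A.erase p with hB
  have hBc : B.card = m := by rw [hB, Finset.card_erase_of_mem hp, hA]; rfl
  have hfB : ∀ a ∈ B, 0 < f a := by
    intro a ha
    rw [hB, Finset.mem_erase] at ha
    exact ht a ha.2 ha.1
  have hinj : Set.InjOn g B := by
    intro a ha b hb hab
    by_contra hne
    have h1 := hgd a b (hfB a ha) (hfB b hb)
    rw [hab, sub_self] at h1
    have h2 : f a * f b ≠ 0 := (mul_pos (hfB a ha) (hfB b hb)).ne'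
    have h3 : dt p a b = 0 := by
      rcases div_eq_zero_iff.1 h1.symm with h | h
      · exact h
      · exact absurd h h2
    have ha' := Finset.mem_erase.1 ha
    have hb' := Finset.mem_erase.1 hb
    exact hgp p hp a ha'.2 b hb'.2 ha'.1.symm hb'.1.symm hne h3
  have hcard : (B.image g).card = m := by rw [Finset.card_image_of_injOn hinj, hBc]
  set e := (B.image g).orderEmbOfFin hcard
  have he : ∀ i, ∃ a ∈ B, g a = e i := by
    intro i
    exact Finset.mem_image.1 (Finset.orderEmbOfFin_mem (B.image g) hcard i)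
  choose q hq1 hq2 using he
  refine ⟨q, ?_, ?_⟩
  · intro i
    have := Finset.mem_erase.1 (hq1 i)
    exact ⟨this.2, this.1⟩
  · intro i j hij
    have h1 : g (q i) < g (q j) := by
      rw [hq2, hq2]; exact e.strictMono hij
    have h2 := hgd (q i) (q j) (hfB _ (hq1 i)) (hfB _ (hq1 j))
    have h3 : 0 < f (q i) * f (q j) := mul_pos (hfB _ (hq1 i)) (hfB _ (hq1 j))
    have h4 : 0 < dt p (q i) (q j) / (f (q i) * f (q j)) := by rw [← h2]; linarith
    exact (div_pos_iff_of_pos_right h3).1 h4

/-- signotope axiom for one quadruple -/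
def sx (x y z w : Bool) : Bool :=
  -- at most one sign change in `x y z w`
  !(x && !y && z) && !(!x && y && !z) && !(x && !y && w) && !(!x && y && !w) &&
  !(x && !z && w) && !(!x && z && !w) && !(y && !z && w) && !(!y && z && !w)

lemma sx_real {p a b c d : ℝ × ℝ} (ab : 0 < dt p a b) (ac : 0 < dt p a c) (ad : 0 < dt p a d)
    (bc : 0 < dt p b c) (bd : 0 < dt p b d) (cd : 0 < dt p c d)
    (habc : dt a b c ≠ 0) (habd : dt a b d ≠ 0) (hacd : dt a c d ≠ 0) (hbcd : dt b c d ≠ 0) :
    sx (decide (0 < dt a b c)) (decide (0 < dt a b d)) (decide (0 < dt a c d))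
      (decide (0 < dt b c d)) = true := by
  have g1 := gp1 p a b c d
  have g2 := gp2 p a b c d
  have g3 := gp3 p a b c d
  rcases habc.lt_or_gt with h1 | h1 <;> rcases habd.lt_or_gt with h2 | h2 <;>
    rcases hacd.lt_or_gt with h3 | h3 <;> rcases hbcd.lt_or_gt with h4 | h4 <;>
    simp only [h1, h2, h3, h4, h1.not_gt, h2.not_gt, h3.not_gt, h4.not_gt, decide_true,
      decide_false] <;>
    first
    | rfl
    | (exfalso; nlinarith [mul_pos ad h1, mul_pos ac (neg_pos.2 h2), mul_pos ab h3])
    | (exfalso; nlinarith [mul_pos ad (neg_pos.2 h1), mul_pos ac h2, mul_pos ab (neg_pos.2 h3)])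
    | (exfalso; nlinarith [mul_pos bd h1, mul_pos bc (neg_pos.2 h2), mul_pos ab h4])
    | (exfalso; nlinarith [mul_pos bd (neg_pos.2 h1), mul_pos bc h2, mul_pos ab (neg_pos.2 h4)])
    | (exfalso; nlinarith [mul_pos cd h1, mul_pos bc (neg_pos.2 h3), mul_pos ac h4])
    | (exfalso; nlinarith [mul_pos cd (neg_pos.2 h1), mul_pos bc h3, mul_pos ac (neg_pos.2 h4)])


/-- signotope axioms for five points -/
def sx5 (abc abd abe acd ace ade bcd bce bde cde : Bool) : Bool :=
  sx abc abd acd bcd && sx abc abe ace bce && sx abd abe ade bde && sx acd ace ade cde &&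
  sx bcd bce bde cde

lemma cl0 : ∀ abc abd abe acd ace ade bcd bce bde cde : Bool,
    sx5 abc abd abe acd ace ade bcd bce bde cde = true → abc = true → bcd = true → cde = true →
    (abc = true ∧ abd = true ∧ abe = true ∧ acd = true ∧ ace = true ∧ ade = true ∧ bcd = true ∧ bce = true ∧ bde = true ∧ cde = true) := by
  decide +kernel

lemma cl1 : ∀ abc abd abe acd ace ade bcd bce bde cde : Bool,
    sx5 abc abd abe acd ace ade bcd bce bde cde = true → abe = false → acd = true → cde = true →
    (abc = false ∧ abd = false ∧ abe = false ∧ acd = true ∧ ace = true ∧ ade = true ∧ bcd = true ∧ bce = true ∧ bde = true ∧ cde = true) := by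
  decide +kernel

lemma cl2 : ∀ abc abd abe acd ace ade bcd bce bde cde : Bool,
    sx5 abc abd abe acd ace ade bcd bce bde cde = true → ace = false → abd = true → bde = true →
    (abc = true ∧ abd = true ∧ abe = true ∧ acd = false ∧ ace = false ∧ ade = true ∧ bcd = false ∧ bce = false ∧ bde = true ∧ cde = true) := by
  decide +kernel

lemma cl3 : ∀ abc abd abe acd ace ade bcd bce bde cde : Bool,
    sx5 abc abd abe acd ace ade bcd bce bde cde = true → abc = false → bce = false → ade = true →
    (abc = false ∧ abd = false ∧ abe = false ∧ acd = false ∧ ace = false ∧ ade = true ∧ bcd = false ∧ bce = false ∧ bde = true ∧ cde = true) := by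
  decide +kernel

lemma cl4 : ∀ abc abd abe acd ace ade bcd bce bde cde : Bool,
    sx5 abc abd abe acd ace ade bcd bce bde cde = true → ade = false → abc = true → bce = true →
    (abc = true ∧ abd = true ∧ abe = true ∧ acd = true ∧ ace = true ∧ ade = false ∧ bcd = true ∧ bce = true ∧ bde = false ∧ cde = false) := by
  decide +kernel

lemma cl5 : ∀ abc abd abe acd ace ade bcd bce bde cde : Bool,
    sx5 abc abd abe acd ace ade bcd bce bde cde = true → abd = false → bde = false → ace = true →
    (abc = false ∧ abd = false ∧ abe = false ∧ acd = true ∧ ace = true ∧ ade = false ∧ bcd = true ∧ bce = true ∧ bde = false ∧ cde = false) := by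
  decide +kernel

lemma cl6 : ∀ abc abd abe acd ace ade bcd bce bde cde : Bool,
    sx5 abc abd abe acd ace ade bcd bce bde cde = true → acd = false → cde = false → abe = true →
    (abc = true ∧ abd = true ∧ abe = true ∧ acd = false ∧ ace = false ∧ ade = false ∧ bcd = false ∧ bce = false ∧ bde = false ∧ cde = false) := by
  decide +kernel

lemma cl7 : ∀ abc abd abe acd ace ade bcd bce bde cde : Bool,
    sx5 abc abd abe acd ace ade bcd bce bde cde = true → abc = false → bcd = false → cde = false →
    (abc = false ∧ abd = false ∧ abe = false ∧ acd = false ∧ ace = false ∧ ade = false ∧ bcd = false ∧ bce = false ∧ bde = false ∧ cde = false) := by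
  decide +kernel

open Classical in
lemma pent0 {a b c d e : ℝ × ℝ} (habc : 0 < dt a b c) (habd : 0 < dt a b d) (habe : 0 < dt a b e) (hacd : 0 < dt a c d) (hace : 0 < dt a c e) (hade : 0 < dt a d e) (hbcd : 0 < dt b c d) (hbce : 0 < dt b c e) (hbde : 0 < dt b d e) (hcde : 0 < dt c d e) :
    ({a, b, c, d, e} : Finset (ℝ × ℝ)).card = 5 ∧
    5 ≤ (Set.extremePoints ℝ (convexHull ℝ
      ((({a, b, c, d, e} : Finset (ℝ × ℝ))) : Set (ℝ × ℝ)))).ncard := by
  apply pentagon <;> (unfold dt at *; linarith)

open Classical in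
lemma pent1 {a b c d e : ℝ × ℝ} (habc : dt a b c < 0) (habd : dt a b d < 0) (habe : dt a b e < 0) (hacd : 0 < dt a c d) (hace : 0 < dt a c e) (hade : 0 < dt a d e) (hbcd : 0 < dt b c d) (hbce : 0 < dt b c e) (hbde : 0 < dt b d e) (hcde : 0 < dt c d e) :
    ({a, c, d, e, b} : Finset (ℝ × ℝ)).card = 5 ∧
    5 ≤ (Set.extremePoints ℝ (convexHull ℝ
      ((({a, c, d, e, b} : Finset (ℝ × ℝ))) : Set (ℝ × ℝ)))).ncard := by
  apply pentagon <;> (unfold dt at *; linarith)

open Classical in
lemma pent2 {a b c d e : ℝ × ℝ} (habc : 0 < dt a b c) (habd : 0 < dt a b d) (habe : 0 < dt a b e) (hacd : dt a c d < 0) (hace : dt a c e < 0) (hade : 0 < dt a d e) (hbcd : dt b c d < 0) (hbce : dt b c e < 0) (hbde : 0 < dt b d e) (hcde : 0 < dt c d e) :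
    ({a, b, d, e, c} : Finset (ℝ × ℝ)).card = 5 ∧
    5 ≤ (Set.extremePoints ℝ (convexHull ℝ
      ((({a, b, d, e, c} : Finset (ℝ × ℝ))) : Set (ℝ × ℝ)))).ncard := by
  apply pentagon <;> (unfold dt at *; linarith)

open Classical in
lemma pent3 {a b c d e : ℝ × ℝ} (habc : dt a b c < 0) (habd : dt a b d < 0) (habe : dt a b e < 0) (hacd : dt a c d < 0) (hace : dt a c e < 0) (hade : 0 < dt a d e) (hbcd : dt b c d < 0) (hbce : dt b c e < 0) (hbde : 0 < dt b d e) (hcde : 0 < dt c d e) :
    ({a, d, e, c, b} : Finset (ℝ × ℝ)).card = 5 ∧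
    5 ≤ (Set.extremePoints ℝ (convexHull ℝ
      ((({a, d, e, c, b} : Finset (ℝ × ℝ))) : Set (ℝ × ℝ)))).ncard := by
  apply pentagon <;> (unfold dt at *; linarith)

open Classical in
lemma pent4 {a b c d e : ℝ × ℝ} (habc : 0 < dt a b c) (habd : 0 < dt a b d) (habe : 0 < dt a b e) (hacd : 0 < dt a c d) (hace : 0 < dt a c e) (hade : dt a d e < 0) (hbcd : 0 < dt b c d) (hbce : 0 < dt b c e) (hbde : dt b d e < 0) (hcde : dt c d e < 0) :
    ({a, b, c, e, d} : Finset (ℝ × ℝ)).card = 5 ∧
    5 ≤ (Set.extremePoints ℝ (convexHull ℝ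
      ((({a, b, c, e, d} : Finset (ℝ × ℝ))) : Set (ℝ × ℝ)))).ncard := by
  apply pentagon <;> (unfold dt at *; linarith)

open Classical in
lemma pent5 {a b c d e : ℝ × ℝ} (habc : dt a b c < 0) (habd : dt a b d < 0) (habe : dt a b e < 0) (hacd : 0 < dt a c d) (hace : 0 < dt a c e) (hade : dt a d e < 0) (hbcd : 0 < dt b c d) (hbce : 0 < dt b c e) (hbde : dt b d e < 0) (hcde : dt c d e < 0) :
    ({a, c, e, d, b} : Finset (ℝ × ℝ)).card = 5 ∧
    5 ≤ (Set.extremePoints ℝ (convexHull ℝ
      ((({a, c, e, d, b} : Finset (ℝ × ℝ))) : Set (ℝ × ℝ)))).ncard := by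
  apply pentagon <;> (unfold dt at *; linarith)

open Classical in
lemma pent6 {a b c d e : ℝ × ℝ} (habc : 0 < dt a b c) (habd : 0 < dt a b d) (habe : 0 < dt a b e) (hacd : dt a c d < 0) (hace : dt a c e < 0) (hade : dt a d e < 0) (hbcd : dt b c d < 0) (hbce : dt b c e < 0) (hbde : dt b d e < 0) (hcde : dt c d e < 0) :
    ({a, b, e, d, c} : Finset (ℝ × ℝ)).card = 5 ∧
    5 ≤ (Set.extremePoints ℝ (convexHull ℝ
      ((({a, b, e, d, c} : Finset (ℝ × ℝ))) : Set (ℝ × ℝ)))).ncard := by
  apply pentagon <;> (unfold dt at *; linarith)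

open Classical in
lemma pent7 {a b c d e : ℝ × ℝ} (habc : dt a b c < 0) (habd : dt a b d < 0) (habe : dt a b e < 0) (hacd : dt a c d < 0) (hace : dt a c e < 0) (hade : dt a d e < 0) (hbcd : dt b c d < 0) (hbce : dt b c e < 0) (hbde : dt b d e < 0) (hcde : dt c d e < 0) :
    ({a, e, d, c, b} : Finset (ℝ × ℝ)).card = 5 ∧
    5 ≤ (Set.extremePoints ℝ (convexHull ℝ
      ((({a, e, d, c, b} : Finset (ℝ × ℝ))) : Set (ℝ × ℝ)))).ncard := by
  apply pentagon <;> (unfold dt at *; linarith)


/-- the convex pentagon property -/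
def HasPent (A : Finset (ℝ × ℝ)) : Prop :=
  ∃ S ⊆ A, S.card = 5 ∧ 5 ≤ (Set.extremePoints ℝ (convexHull ℝ (S : Set (ℝ × ℝ)))).ncard

section asm

variable {A : Finset (ℝ × ℝ)} {p : ℝ × ℝ} {Q : ℕ → ℝ × ℝ}

lemma leaf_false (hp : p ∈ A) (hQA : ∀ i, i < 8 → Q i ∈ A)
    (hD : ∀ i j, i < j → j < 8 → 0 < dt p (Q i) (Q j))
    (hne : ∀ i j k, i < j → j < k → k < 8 → dt (Q i) (Q j) (Q k) ≠ 0)
    (hno : ¬ HasPent A) (s : ℕ → Bool)
    (hs : ∀ i j k, i < j → j < k → k < 8 → s (idx i j k) = decide (0 < dt (Q i) (Q j) (Q k)))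
    (l : Leaf) (hl : l.ok = true) (hall : ∀ x ∈ l.pat, s x.1 = x.2) : False := by
  classical
  have SX : ∀ a b c d, a < b → b < c → c < d → d < 8 →
      sx (s (idx a b c)) (s (idx a b d)) (s (idx a c d)) (s (idx b c d)) = true := by
    intro a b c d h1 h2 h3 h4
    rw [hs a b c h1 h2 (by omega), hs a b d h1 (by omega) h4, hs a c d (by omega) h3 h4,
      hs b c d h2 h3 h4]
    exact sx_real (p := p) (hD a b h1 (by omega)) (hD a c (by omega) (by omega))
      (hD a d (by omega) h4) (hD b c h2 (by omega)) (hD b d (by omega) h4) (hD c d h3 h4)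
      (hne a b c h1 h2 (by omega)) (hne a b d h1 (by omega) h4) (hne a c d (by omega) h3 h4)
      (hne b c d h2 h3 h4)
  have ST : ∀ i j k, i < j → j < k → k < 8 → s (idx i j k) = true →
      0 < dt (Q i) (Q j) (Q k) := by
    intro i j k h1 h2 h3 h
    rw [hs i j k h1 h2 h3] at h
    exact of_decide_eq_true h
  have SF : ∀ i j k, i < j → j < k → k < 8 → s (idx i j k) = false →
      dt (Q i) (Q j) (Q k) < 0 := by
    intro i j k h1 h2 h3 h
    rw [hs i j k h1 h2 h3] at h
    exact lt_of_le_of_ne (not_lt.1 (of_decide_eq_false h)) (hne i j k h1 h2 h3)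
  have sub : ∀ S : Finset (ℝ × ℝ), S ⊆ A → S.card = 5 ∧
      5 ≤ (Set.extremePoints ℝ (convexHull ℝ (S : Set (ℝ × ℝ)))).ncard → False :=
    fun S hS h => hno ⟨S, hS, h.1, h.2⟩
  rcases l with ⟨a, b, c, d, k⟩ | ⟨a, b, c, d⟩ | ⟨a, b, c, d, e, k⟩
  · -- axioms
    simp only [Leaf.ok, Bool.and_eq_true, decide_eq_true_eq] at hl
    obtain ⟨⟨⟨⟨h1, h2⟩, h3⟩, h4⟩, h5⟩ := hl
    have hsx := SX a b c d h1 h2 h3 h4
    have hcase : ∀ x y z w : Bool, sx x y z w = true →
        ¬ (x = true ∧ y = false ∧ z = true) ∧ ¬ (x = false ∧ y = true ∧ z = false) ∧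
        ¬ (x = true ∧ y = false ∧ w = true) ∧ ¬ (x = false ∧ y = true ∧ w = false) ∧
        ¬ (x = true ∧ z = false ∧ w = true) ∧ ¬ (x = false ∧ z = true ∧ w = false) ∧
        ¬ (y = true ∧ z = false ∧ w = true) ∧ ¬ (y = false ∧ z = true ∧ w = false) := by
      decide
    obtain ⟨c0, c1, c2, c3, c4, c5, c6, c7⟩ := hcase _ _ _ _ hsx
    match k, h5 with
    | 0, _ => simp only [Leaf.pat, List.forall_mem_cons] at hall
              exact c0 ⟨hall.1, hall.2.1, hall.2.2.1⟩
    | 1, _ => simp only [Leaf.pat, List.forall_mem_cons] at hall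
              exact c1 ⟨hall.1, hall.2.1, hall.2.2.1⟩
    | 2, _ => simp only [Leaf.pat, List.forall_mem_cons] at hall
              exact c2 ⟨hall.1, hall.2.1, hall.2.2.1⟩
    | 3, _ => simp only [Leaf.pat, List.forall_mem_cons] at hall
              exact c3 ⟨hall.1, hall.2.1, hall.2.2.1⟩
    | 4, _ => simp only [Leaf.pat, List.forall_mem_cons] at hall
              exact c4 ⟨hall.1, hall.2.1, hall.2.2.1⟩
    | 5, _ => simp only [Leaf.pat, List.forall_mem_cons] at hall
              exact c5 ⟨hall.1, hall.2.1, hall.2.2.1⟩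
    | 6, _ => simp only [Leaf.pat, List.forall_mem_cons] at hall
              exact c6 ⟨hall.1, hall.2.1, hall.2.2.1⟩
    | 7, _ => simp only [Leaf.pat, List.forall_mem_cons] at hall
              exact c7 ⟨hall.1, hall.2.1, hall.2.2.1⟩
  · -- cups
    simp only [Leaf.ok, Bool.and_eq_true, decide_eq_true_eq] at hl
    obtain ⟨⟨⟨h1, h2⟩, h3⟩, h4⟩ := hl
    have hsx := SX a b c d h1 h2 h3 h4
    simp only [Leaf.pat, List.forall_mem_cons] at hall
    have hcase : ∀ x y z w : Bool, sx x y z w = true → x = true → w = true →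
        y = true ∧ z = true := by decide
    obtain ⟨hy, hz⟩ := hcase _ _ _ _ hsx hall.1 hall.2.1
    have t1 := ST a b c h1 h2 (by omega) hall.1
    have t2 := ST a b d h1 (by omega) h4 hy
    have t3 := ST a c d (by omega) h3 h4 hz
    have t4 := ST b c d h2 h3 h4 hall.2.1
    refine sub _ ?_ (pentagon (hD a b h1 (by omega)) (hD a c (by omega) (by omega))
      (hD a d (by omega) h4) (hD b c h2 (by omega)) (hD b d (by omega) h4) (hD c d h3 h4)
      t1 t2 t3 t4)
    intro x hx
    simp only [Finset.mem_insert, Finset.mem_singleton] at hx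
    rcases hx with rfl | rfl | rfl | rfl | rfl
    · exact hp
    all_goals exact hQA _ (by omega)
  · -- pentagons
    simp only [Leaf.ok, Bool.and_eq_true, decide_eq_true_eq] at hl
    obtain ⟨⟨⟨⟨⟨h1, h2⟩, h3⟩, h4⟩, h5⟩, h6⟩ := hl
    have hsx : sx5 (s (idx a b c)) (s (idx a b d)) (s (idx a b e)) (s (idx a c d))
        (s (idx a c e)) (s (idx a d e)) (s (idx b c d)) (s (idx b c e)) (s (idx b d e))
        (s (idx c d e)) = true := by
      simp only [sx5, Bool.and_eq_true]
      exact ⟨⟨⟨⟨SX a b c d h1 h2 h3 (by omega), SX a b c e h1 h2 (by omega) h5⟩,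
        SX a b d e h1 (by omega) h4 h5⟩, SX a c d e (by omega) h3 h4 h5⟩,
        SX b c d e h2 h3 h4 h5⟩
    have hQ : ∀ x, x = Q a ∨ x = Q b ∨ x = Q c ∨ x = Q d ∨ x = Q e → x ∈ A := by
      intro x hx
      rcases hx with rfl | rfl | rfl | rfl | rfl
      all_goals exact hQA _ (by omega)
    match k, h6 with
    | 0, _ =>
      simp only [Leaf.pat, List.forall_mem_cons] at hall
      obtain ⟨r0, r1, r2, r3, r4, r5, r6, r7, r8, r9⟩ :=
        cl0 _ _ _ _ _ _ _ _ _ _ hsx hall.1 hall.2.1 hall.2.2.1
      refine sub _ ?_ (pent0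
        (ST a b c (by omega) (by omega) (by omega) r0)
        (ST a b d (by omega) (by omega) (by omega) r1)
        (ST a b e (by omega) (by omega) (by omega) r2)
        (ST a c d (by omega) (by omega) (by omega) r3)
        (ST a c e (by omega) (by omega) (by omega) r4)
        (ST a d e (by omega) (by omega) (by omega) r5)
        (ST b c d (by omega) (by omega) (by omega) r6)
        (ST b c e (by omega) (by omega) (by omega) r7)
        (ST b d e (by omega) (by omega) (by omega) r8)
        (ST c d e (by omega) (by omega) (by omega) r9))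
      intro x hx
      simp only [Finset.mem_insert, Finset.mem_singleton] at hx
      exact hQ x (by tauto)
    | 1, _ =>
      simp only [Leaf.pat, List.forall_mem_cons] at hall
      obtain ⟨r0, r1, r2, r3, r4, r5, r6, r7, r8, r9⟩ :=
        cl1 _ _ _ _ _ _ _ _ _ _ hsx hall.1 hall.2.1 hall.2.2.1
      refine sub _ ?_ (pent1
        (SF a b c (by omega) (by omega) (by omega) r0)
        (SF a b d (by omega) (by omega) (by omega) r1)
        (SF a b e (by omega) (by omega) (by omega) r2)
        (ST a c d (by omega) (by omega) (by omega) r3)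
        (ST a c e (by omega) (by omega) (by omega) r4)
        (ST a d e (by omega) (by omega) (by omega) r5)
        (ST b c d (by omega) (by omega) (by omega) r6)
        (ST b c e (by omega) (by omega) (by omega) r7)
        (ST b d e (by omega) (by omega) (by omega) r8)
        (ST c d e (by omega) (by omega) (by omega) r9))
      intro x hx
      simp only [Finset.mem_insert, Finset.mem_singleton] at hx
      exact hQ x (by tauto)
    | 2, _ =>
      simp only [Leaf.pat, List.forall_mem_cons] at hall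
      obtain ⟨r0, r1, r2, r3, r4, r5, r6, r7, r8, r9⟩ :=
        cl2 _ _ _ _ _ _ _ _ _ _ hsx hall.1 hall.2.1 hall.2.2.1
      refine sub _ ?_ (pent2
        (ST a b c (by omega) (by omega) (by omega) r0)
        (ST a b d (by omega) (by omega) (by omega) r1)
        (ST a b e (by omega) (by omega) (by omega) r2)
        (SF a c d (by omega) (by omega) (by omega) r3)
        (SF a c e (by omega) (by omega) (by omega) r4)
        (ST a d e (by omega) (by omega) (by omega) r5)
        (SF b c d (by omega) (by omega) (by omega) r6)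
        (SF b c e (by omega) (by omega) (by omega) r7)
        (ST b d e (by omega) (by omega) (by omega) r8)
        (ST c d e (by omega) (by omega) (by omega) r9))
      intro x hx
      simp only [Finset.mem_insert, Finset.mem_singleton] at hx
      exact hQ x (by tauto)
    | 3, _ =>
      simp only [Leaf.pat, List.forall_mem_cons] at hall
      obtain ⟨r0, r1, r2, r3, r4, r5, r6, r7, r8, r9⟩ :=
        cl3 _ _ _ _ _ _ _ _ _ _ hsx hall.1 hall.2.1 hall.2.2.1
      refine sub _ ?_ (pent3
        (SF a b c (by omega) (by omega) (by omega) r0)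
        (SF a b d (by omega) (by omega) (by omega) r1)
        (SF a b e (by omega) (by omega) (by omega) r2)
        (SF a c d (by omega) (by omega) (by omega) r3)
        (SF a c e (by omega) (by omega) (by omega) r4)
        (ST a d e (by omega) (by omega) (by omega) r5)
        (SF b c d (by omega) (by omega) (by omega) r6)
        (SF b c e (by omega) (by omega) (by omega) r7)
        (ST b d e (by omega) (by omega) (by omega) r8)
        (ST c d e (by omega) (by omega) (by omega) r9))
      intro x hx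
      simp only [Finset.mem_insert, Finset.mem_singleton] at hx
      exact hQ x (by tauto)
    | 4, _ =>
      simp only [Leaf.pat, List.forall_mem_cons] at hall
      obtain ⟨r0, r1, r2, r3, r4, r5, r6, r7, r8, r9⟩ :=
        cl4 _ _ _ _ _ _ _ _ _ _ hsx hall.1 hall.2.1 hall.2.2.1
      refine sub _ ?_ (pent4
        (ST a b c (by omega) (by omega) (by omega) r0)
        (ST a b d (by omega) (by omega) (by omega) r1)
        (ST a b e (by omega) (by omega) (by omega) r2)
        (ST a c d (by omega) (by omega) (by omega) r3)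
        (ST a c e (by omega) (by omega) (by omega) r4)
        (SF a d e (by omega) (by omega) (by omega) r5)
        (ST b c d (by omega) (by omega) (by omega) r6)
        (ST b c e (by omega) (by omega) (by omega) r7)
        (SF b d e (by omega) (by omega) (by omega) r8)
        (SF c d e (by omega) (by omega) (by omega) r9))
      intro x hx
      simp only [Finset.mem_insert, Finset.mem_singleton] at hx
      exact hQ x (by tauto)
    | 5, _ =>
      simp only [Leaf.pat, List.forall_mem_cons] at hall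
      obtain ⟨r0, r1, r2, r3, r4, r5, r6, r7, r8, r9⟩ :=
        cl5 _ _ _ _ _ _ _ _ _ _ hsx hall.1 hall.2.1 hall.2.2.1
      refine sub _ ?_ (pent5
        (SF a b c (by omega) (by omega) (by omega) r0)
        (SF a b d (by omega) (by omega) (by omega) r1)
        (SF a b e (by omega) (by omega) (by omega) r2)
        (ST a c d (by omega) (by omega) (by omega) r3)
        (ST a c e (by omega) (by omega) (by omega) r4)
        (SF a d e (by omega) (by omega) (by omega) r5)
        (ST b c d (by omega) (by omega) (by omega) r6)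
        (ST b c e (by omega) (by omega) (by omega) r7)
        (SF b d e (by omega) (by omega) (by omega) r8)
        (SF c d e (by omega) (by omega) (by omega) r9))
      intro x hx
      simp only [Finset.mem_insert, Finset.mem_singleton] at hx
      exact hQ x (by tauto)
    | 6, _ =>
      simp only [Leaf.pat, List.forall_mem_cons] at hall
      obtain ⟨r0, r1, r2, r3, r4, r5, r6, r7, r8, r9⟩ :=
        cl6 _ _ _ _ _ _ _ _ _ _ hsx hall.1 hall.2.1 hall.2.2.1
      refine sub _ ?_ (pent6
        (ST a b c (by omega) (by omega) (by omega) r0)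
        (ST a b d (by omega) (by omega) (by omega) r1)
        (ST a b e (by omega) (by omega) (by omega) r2)
        (SF a c d (by omega) (by omega) (by omega) r3)
        (SF a c e (by omega) (by omega) (by omega) r4)
        (SF a d e (by omega) (by omega) (by omega) r5)
        (SF b c d (by omega) (by omega) (by omega) r6)
        (SF b c e (by omega) (by omega) (by omega) r7)
        (SF b d e (by omega) (by omega) (by omega) r8)
        (SF c d e (by omega) (by omega) (by omega) r9))
      intro x hx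
      simp only [Finset.mem_insert, Finset.mem_singleton] at hx
      exact hQ x (by tauto)
    | 7, _ =>
      simp only [Leaf.pat, List.forall_mem_cons] at hall
      obtain ⟨r0, r1, r2, r3, r4, r5, r6, r7, r8, r9⟩ :=
        cl7 _ _ _ _ _ _ _ _ _ _ hsx hall.1 hall.2.1 hall.2.2.1
      refine sub _ ?_ (pent7
        (SF a b c (by omega) (by omega) (by omega) r0)
        (SF a b d (by omega) (by omega) (by omega) r1)
        (SF a b e (by omega) (by omega) (by omega) r2)
        (SF a c d (by omega) (by omega) (by omega) r3)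
        (SF a c e (by omega) (by omega) (by omega) r4)
        (SF a d e (by omega) (by omega) (by omega) r5)
        (SF b c d (by omega) (by omega) (by omega) r6)
        (SF b c e (by omega) (by omega) (by omega) r7)
        (SF b d e (by omega) (by omega) (by omega) r8)
        (SF c d e (by omega) (by omega) (by omega) r9))
      intro x hx
      simp only [Finset.mem_insert, Finset.mem_singleton] at hx
      exact hQ x (by tauto)

end asm

/-- nine points in general position contain a convex pentagon -/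
theorem nine (A : Finset (ℝ × ℝ)) (hA : A.card = 9)
    (hgp : ∀ a ∈ A, ∀ b ∈ A, ∀ c ∈ A, a ≠ b → a ≠ c → b ≠ c → dt a b c ≠ 0) :
    ∃ S ⊆ A, S.card = 5 ∧ 5 ≤ (Set.extremePoints ℝ (convexHull ℝ (S : Set (ℝ × ℝ)))).ncard := by
  by_contra hno
  obtain ⟨p, hp, q, hq, hD⟩ := radial A 8 hA hgp
  set Q : ℕ → ℝ × ℝ := fun n => if h : n < 8 then q ⟨n, h⟩ else p with hQ
  have hQi : ∀ i (h : i < 8), Q i = q ⟨i, h⟩ := by
    intro i h; simp only [hQ, dif_pos h]
  have hQA : ∀ i, i < 8 → Q i ∈ A := by
    intro i h; rw [hQi i h]; exact (hq _).1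
  have hDQ : ∀ i j, i < j → j < 8 → 0 < dt p (Q i) (Q j) := by
    intro i j hij hj
    rw [hQi i (by omega), hQi j hj]
    exact hD _ _ (by simpa using hij)
  have hneQ : ∀ i j, i < j → j < 8 → Q i ≠ Q j := by
    intro i j hij hj h
    have := hDQ i j hij hj
    rw [h] at this
    simp [dt] at this
    linarith
  have hne : ∀ i j k, i < j → j < k → k < 8 → dt (Q i) (Q j) (Q k) ≠ 0 := by
    intro i j k h1 h2 h3
    exact hgp _ (hQA i (by omega)) _ (hQA j (by omega)) _ (hQA k h3)
      (hneQ i j h1 (by omega)) (hneQ i k (by omega) h3) (hneQ j k h2 h3)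
  set s : ℕ → Bool := fun v => decide (0 < dt (Q (v / 64)) (Q (v / 8 % 8)) (Q (v % 8))) with hs
  have hs' : ∀ i j k, i < j → j < k → k < 8 →
      s (idx i j k) = decide (0 < dt (Q i) (Q j) (Q k)) := by
    intro i j k h1 h2 h3
    have e1 : idx i j k / 64 = i := by unfold idx; omega
    have e2 : idx i j k / 8 % 8 = j := by unfold idx; omega
    have e3 : idx i j k % 8 = k := by unfold idx; omega
    simp only [hs, e1, e2, e3]
  exact no_sig s (fun l hl hall => leaf_false hp hQA hDQ hne hno s hs' l hl hall)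

end Pool.Agent.G5.Nine
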