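import Pool.Agent.Lib_helper61.G5.Quad
import Pool.Agent.Lib_helper61.G5.Nine

/-!
# MP_022ed3_co: the frame: from the triangular case to the statement
-/

set_option autoImplicit false

namespace Pool.Agent.G5.Frame

open Pool.Agent.G5.Lower Pool.Agent.G5.Planar Pool.Agent.G5.Core Pool.Agent.G5.Quad

/-- the hull of `P` is the triangle `a b c`, counterclockwise for `D s` -/
structure Conf3 (s : ℝ) (P : Finset (ℝ × ℝ)) (a b c : ℝ × ℝ) : Prop where
  hs : s ≠ 0
  gen : Gen P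
  ha : a ∈ P
  hb : b ∈ P
  hc : c ∈ P
  ab : a ≠ b
  bc : b ≠ c
  ca : c ≠ a
  eab : ∀ z ∈ P, z ≠ a → z ≠ b → 0 < D s a b z
  ebc : ∀ z ∈ P, z ≠ b → z ≠ c → 0 < D s b c z
  eca : ∀ z ∈ P, z ≠ c → z ≠ a → 0 < D s c a z

section conf3

variable {s : ℝ} {P : Finset (ℝ × ℝ)} {a b c : ℝ × ℝ}

lemma Conf3.rot (h : Conf3 s P a b c) : Conf3 s P b c a :=
  ⟨h.hs, h.gen, h.hb, h.hc, h.ha, h.bc, h.ca, h.ab, h.ebc, h.eca, h.eab⟩

lemma Conf3.refl (h : Conf3 s P a b c) : Conf3 (-s) P a c b :=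
  ⟨neg_ne_zero.2 h.hs, h.gen, h.ha, h.hc, h.hb, h.ca.symm, h.bc.symm, h.ab.symm,
    fun z hz h1 h2 => by have := h.eca z hz h2 h1; rw [D_neg, D_swap]; linarith,
    fun z hz h1 h2 => by have := h.ebc z hz h2 h1; rw [D_neg, D_swap]; linarith,
    fun z hz h1 h2 => by have := h.eab z hz h2 h1; rw [D_neg, D_swap]; linarith⟩

lemma Conf3.exta (h : Conf3 s P a b c) : ExtP P a := edge_ext h.ha h.hb h.ab h.eab
lemma Conf3.extb (h : Conf3 s P a b c) : ExtP P b := h.rot.exta
lemma Conf3.extc (h : Conf3 s P a b c) : ExtP P c := h.rot.rot.exta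

end conf3

/-- a first hull edge -/
lemma exists_edge {P : Finset (ℝ × ℝ)} (hg : Gen P) (hc : 2 ≤ P.card) :
    ∃ x ∈ P, ∃ y ∈ P, x ≠ y ∧ ∀ w ∈ P, w ≠ x → w ≠ y → 0 < D 1 x y w := by
  classical
  obtain ⟨p, hp, t, ht⟩ := Nine.exists_min P (Finset.card_pos.1 (by omega))
  set f : ℝ × ℝ → ℝ := fun q => (q.1 - p.1) + t * (q.2 - p.2) with hf
  set g : ℝ × ℝ → ℝ := fun q => (q.2 - p.2) / f q with hg'
  have hne : (P.erase p).Nonempty := by
    rw [← Finset.card_pos, Finset.card_erase_of_mem hp]; omega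
  obtain ⟨e, he, hmin⟩ := (P.erase p).exists_min_image g hne
  rw [Finset.mem_erase] at he
  refine ⟨p, hp, e, he.2, he.1.symm, ?_⟩
  intro w hw hwp hwe
  have hfe : 0 < f e := ht e he.2 he.1
  have hfw : 0 < f w := ht w hw hwp
  have hle := hmin w (Finset.mem_erase.2 ⟨hwp, hw⟩)
  have h1 : g w - g e = dt p e w / (f e * f w) := by
    rw [hg']
    simp only
    rw [div_sub_div _ _ hfw.ne' hfe.ne', mul_comm (f w) (f e)]
    congr 1
    simp only [hf, dt]; ring
  have h2 : 0 ≤ dt p e w / (f e * f w) := by rw [← h1]; linarith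
  have h3 : 0 ≤ dt p e w := by
    by_contra hcon
    have := div_neg_of_neg_of_pos (not_le.1 hcon) (mul_pos hfe hfw)
    linarith
  have h4 : dt p e w ≠ 0 := hg p hp e he.2 w hw he.1.symm hwp.symm hwe.symm
  unfold D
  rw [one_mul]
  exact lt_of_le_of_ne h3 h4.symm

/-- the hull is a triangle or a quadrilateral -/
theorem hull_cases {P : Finset (ℝ × ℝ)} (hg : Gen P) (hc : 3 ≤ P.card)
    (h4 : (Set.extremePoints ℝ (convexHull ℝ (P : Set (ℝ × ℝ)))).ncard ≤ 4) :
    (∃ a b c, Conf3 1 P a b c) ∨ (∃ a b c d, Conf 1 P a b c d) := by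
  classical
  have h10 : (1 : ℝ) ≠ 0 := one_ne_zero
  obtain ⟨v0, hv0, v1, hv1, h01, e01⟩ := exists_edge hg (by omega)
  obtain ⟨v2, hv2, h21, e12⟩ := next_vertex hg h10 hv1 hv0 h01.symm
    (fun w hw a b => e01 w hw b a)
  have h02 : v0 ≠ v2 := by
    rintro rfl
    obtain ⟨w, hw, hw0, hw1⟩ : ∃ w ∈ P, w ≠ v0 ∧ w ≠ v1 := by
      by_contra hcon
      push Not at hcon
      have : P ⊆ {v0, v1} := by
        intro w hw
        simp only [Finset.mem_insert, Finset.mem_singleton]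
        by_cases h : w = v0
        · exact Or.inl h
        · exact Or.inr (hcon w hw h)
      have := Finset.card_le_card this
      have := Finset.card_le_two (a := v0) (b := v1)
      omega
    linarith [e12 w hw hw1 hw0, ps (e01 w hw hw0 hw1)]
  obtain ⟨v3, hv3, h32, e23⟩ := next_vertex hg h10 hv2 hv1 h21
    (fun w hw a b => e12 w hw b a)
  have h31 : v3 ≠ v1 := by
    rintro rfl
    linarith [e23 v0 hv0 h02 h01, ps (e12 v0 hv0 h01 h02)]
  by_cases h30 : v3 = v0
  · left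
    subst h30
    exact ⟨v3, v1, v2, h10, hg, hv3, hv1, hv2, h31, h21.symm, h32.symm, e01, e12,
      fun z hz a b => e23 z hz a b⟩
  obtain ⟨v4, hv4, h43, e34⟩ := next_vertex hg h10 hv3 hv2 h32
    (fun w hw a b => e23 w hw b a)
  have h42 : v4 ≠ v2 := by
    rintro rfl
    linarith [e34 v1 hv1 h31.symm h21.symm, ps (e23 v1 hv1 h21.symm h31.symm)]
  have h41 : v4 ≠ v1 := by
    rintro rfl
    linarith [e34 v0 hv0 (Ne.symm h30) h01, ps13 (e01 v3 hv3 h30 h31)]
  by_cases h40 : v4 = v0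
  · right
    subst h40
    exact ⟨v4, v1, v2, v3, h10, hg, hv4, hv1, hv2, hv3, h01, h21.symm, h32.symm, h43.symm,
      h02, h31.symm, e01, e12, e23, e34⟩
  exfalso
  refine five_false h4 (edge_ext hv0 hv1 h01 e01) (edge_ext hv1 hv2 h21.symm e12)
    (edge_ext hv2 hv3 h32.symm e23) (edge_ext' hv2 hv3 h32.symm e23)
    (edge_ext' hv3 hv4 h43.symm e34) ?_
  simp [h01, h02, h21.symm, h31.symm, h32.symm, h43.symm, Ne.symm h30, Ne.symm h40, h41.symm,
    h42.symm]

lemma collinear_of_dt {a b c : ℝ × ℝ} (hab : a ≠ b) (h : dt a b c = 0) :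
    Collinear ℝ ({a, b, c} : Set (ℝ × ℝ)) := by
  rw [collinear_iff_of_mem (p₀ := a) (by simp)]
  refine ⟨b - a, ?_⟩
  intro x hx
  simp only [Set.mem_insert_iff, Set.mem_singleton_iff] at hx
  rcases hx with rfl | rfl | rfl
  · exact ⟨0, by simp⟩
  · exact ⟨1, by simp⟩
  · unfold dt at h
    have hne : b.1 - a.1 ≠ 0 ∨ b.2 - a.2 ≠ 0 := by
      by_contra hcon
      push Not at hcon
      exact hab (Prod.ext (by linarith [hcon.1]) (by linarith [hcon.2]))
    rcases hne with h1 | h1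
    · refine ⟨(x.1 - a.1) / (b.1 - a.1), ?_⟩
      apply Prod.ext
      · simp only [vadd_eq_add, Prod.fst_add, Prod.smul_fst, Prod.fst_sub, smul_eq_mul]
        field_simp
        ring
      · simp only [vadd_eq_add, Prod.snd_add, Prod.smul_snd, Prod.snd_sub, smul_eq_mul]
        field_simp
        linarith
    · refine ⟨(x.2 - a.2) / (b.2 - a.2), ?_⟩
      apply Prod.ext
      · simp only [vadd_eq_add, Prod.fst_add, Prod.smul_fst, Prod.fst_sub, smul_eq_mul]
        field_simp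
        linarith
      · simp only [vadd_eq_add, Prod.snd_add, Prod.smul_snd, Prod.snd_sub, smul_eq_mul]
        field_simp
        ring

/-- from subsets of exact size to subsets of size at least `m + 1` -/
lemma thin_of_exact {m : ℕ} {P : Finset (ℝ × ℝ)} (hm : 4 ≤ m)
    (h : ∀ S ⊆ P, S.card = m + 1 →
      ¬ 5 ≤ (Set.extremePoints ℝ (convexHull ℝ (S : Set (ℝ × ℝ)))).ncard) : Thin m P := by
  classical
  intro S hS hcard
  by_contra hcon
  push Not at hcon
  have hfin : (Set.extremePoints ℝ (convexHull ℝ (S : Set (ℝ × ℝ)))).Finite :=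
    S.finite_toSet.subset extremePoints_convexHull_subset
  set E := hfin.toFinset with hE
  have hEc : E.card = (Set.extremePoints ℝ (convexHull ℝ (S : Set (ℝ × ℝ)))).ncard := by
    rw [Set.ncard_eq_toFinset_card _ hfin]
  obtain ⟨F, hF, hFc⟩ := Finset.exists_subset_card_eq (by omega : 5 ≤ E.card)
  have hFS : F ⊆ S := by
    intro x hx
    have := hF hx
    rw [hE, Set.Finite.mem_toFinset] at this
    exact ExtP.mem this
  obtain ⟨T, hFT, hTS, hTc⟩ := Finset.exists_subsuperset_card_eq hFS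
    (by omega : F.card ≤ m + 1) hcard
  apply h T (hTS.trans hS) hTc
  have := le_ncard_extreme (S := T) (T := F) (by
    intro x hx
    have h1 := hF hx
    rw [hE, Set.Finite.mem_toFinset] at h1
    exact ExtP.mono h1 (hFT hx) hTS)
  omega

/-- the statement follows from the triangular case -/
theorem main_of_tri
    (htri : ∀ (m : ℕ) (P : Finset (ℝ × ℝ)) (a b c : ℝ × ℝ), 4 ≤ m → Thin m P →
      P.card = 2 * m + 1 → Conf3 1 P a b c → False) :
    ∀ n : ℕ, 5 ≤ n →
      IsLeast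
        {N : ℕ | ∀ A : Finset (ℝ × ℝ), A.card = N →
            (∀ a ∈ A, ∀ b ∈ A, ∀ c ∈ A, a ≠ b → a ≠ c → b ≠ c →
              ¬ Collinear ℝ ({a, b, c} : Set (ℝ × ℝ))) →
            ∃ S ⊆ A, S.card = n ∧
              5 ≤ (Set.extremePoints ℝ (convexHull ℝ (S : Set (ℝ × ℝ)))).ncard}
        (2 * n - 1) := by
  intro n hn
  refine ⟨?_, fun N hN => Lower.lower n hn N hN⟩
  intro A hA hcol
  by_contra hcon
  push Not at hcon
  have hg : Gen A := fun a ha b hb c hc hab hac hbc h0 =>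
    hcol a ha b hb c hc hab hac hbc (collinear_of_dt hab h0)
  obtain ⟨m, rfl⟩ : ∃ m, n = m + 1 := ⟨n - 1, by omega⟩
  have hthin : Thin m A := thin_of_exact (by omega) (fun S hS hc h5 => by
    have := hcon S hS hc
    omega)
  have hAc : A.card = 2 * m + 1 := by omega
  rcases hull_cases hg (by omega) (hthin A (Finset.Subset.refl A) (by omega)) with
    ⟨a, b, c, h⟩ | ⟨a, b, c, d, h⟩
  · exact htri m A a b c (by omega) hthin hAc h
  · exact quad_false h hthin hAc (by omega)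

end Pool.Agent.G5.Frame
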