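import Mathlib

/-!
# MP_022ed3_co: the lower bound `g(5,n) ≥ 2n-1`

For every `n ≥ 5` there are `2n-2` points in general position in the plane such that every
`n`-subset has a convex hull with at most four extreme points (pinwheel construction).
-/

set_option autoImplicit false

namespace Pool.Agent.G5.Lower

/-- orientation determinant -/
def dt (a b c : ℝ × ℝ) : ℝ := (b.1 - a.1) * (c.2 - a.2) - (b.2 - a.2) * (c.1 - a.1)

lemma dt_cyc (a b c : ℝ × ℝ) : dt b c a = dt a b c := by unfold dt; ring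
lemma dt_cyc' (a b c : ℝ × ℝ) : dt c a b = dt a b c := by unfold dt; ring
lemma dt_swap (a b c : ℝ × ℝ) : dt b a c = - dt a b c := by unfold dt; ring
lemma dt_swap' (a b c : ℝ × ℝ) : dt a c b = - dt a b c := by unfold dt; ring

lemma dt_of_collinear {a b c : ℝ × ℝ} (h : Collinear ℝ ({a, b, c} : Set (ℝ × ℝ))) :
    dt a b c = 0 := by
  rw [collinear_iff_of_mem (p₀ := a) (by simp)] at h
  obtain ⟨v, hv⟩ := h
  obtain ⟨s, hs⟩ := hv b (by simp)
  obtain ⟨t, ht⟩ := hv c (by simp)
  subst hs; subst ht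
  simp [dt]
  ring

/-- a point with all three barycentric signs right is in the triangle -/
lemma mem_tri {a b c x : ℝ × ℝ} (h : dt a b c < 0) (h1 : dt a b x ≤ 0) (h2 : dt b c x ≤ 0)
    (h3 : dt c a x ≤ 0) : x ∈ convexHull ℝ ({a, b, c} : Set (ℝ × ℝ)) := by
  have hsum : dt b c x + dt c a x + dt a b x = dt a b c := by unfold dt; ring
  have hx : x = (dt b c x / dt a b c) • a + (dt c a x / dt a b c) • b +
      (dt a b x / dt a b c) • c := by
    have hne : dt a b c ≠ 0 := ne_of_lt h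
    apply Prod.ext
    · simp only [Prod.fst_add, Prod.smul_fst, smul_eq_mul]
      field_simp
      unfold dt; ring
    · simp only [Prod.snd_add, Prod.smul_snd, smul_eq_mul]
      field_simp
      unfold dt; ring
  have hu : 0 ≤ dt b c x / dt a b c := div_nonneg_of_nonpos h2 h.le
  have hv : 0 ≤ dt c a x / dt a b c := div_nonneg_of_nonpos h3 h.le
  have hw : 0 ≤ dt a b x / dt a b c := div_nonneg_of_nonpos h1 h.le
  have hs1 : dt b c x / dt a b c + dt c a x / dt a b c + dt a b x / dt a b c = 1 := by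
    rw [← add_div, ← add_div, hsum, div_self (ne_of_lt h)]
  have key := (convex_convexHull ℝ ({a, b, c} : Set (ℝ × ℝ))).sum_mem
    (t := (Finset.univ : Finset (Fin 3)))
    (w := ![dt b c x / dt a b c, dt c a x / dt a b c, dt a b x / dt a b c])
    (z := ![a, b, c]) (by
      intro i _
      fin_cases i
      · exact hu
      · exact hv
      · exact hw) (by
      rw [Fin.sum_univ_three]
      exact hs1) (by
      intro i _
      apply subset_convexHull
      fin_cases i <;> simp)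
  rw [Fin.sum_univ_three] at key
  rw [hx]
  exact key

/-- clockwise quarter turn -/
def rot (a : ℝ × ℝ) : ℝ × ℝ := (a.2, -a.1)

lemma dt_rot (a b c : ℝ × ℝ) : dt (rot a) (rot b) (rot c) = dt a b c := by
  unfold dt rot; ring

lemma rot4 (a : ℝ × ℝ) : rot (rot (rot (rot a))) = a := by
  simp [rot]

/-- the basic arm -/
def base (K : ℝ) (i : ℕ) : ℝ × ℝ := ((i : ℝ) ^ 2, K ^ 2 - K * i)

/-- the four arms -/
def P (K : ℝ) (r : Fin 4) (i : ℕ) : ℝ × ℝ := rot^[r.val] (base K i)

lemma dt_iter (n : ℕ) (a b c : ℝ × ℝ) :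
    dt (rot^[n] a) (rot^[n] b) (rot^[n] c) = dt a b c := by
  induction n with
  | zero => rfl
  | succ n ih => rw [Function.iterate_succ_apply', Function.iterate_succ_apply',
      Function.iterate_succ_apply', dt_rot, ih]

lemma P_add (K : ℝ) (r s : Fin 4) (i : ℕ) : P K (r + s) i = rot^[r.val] (P K s i) := by
  fin_cases r <;> fin_cases s <;> simp [P, rot, base]

lemma dt_shift (K : ℝ) (r s t u : Fin 4) (i j k : ℕ) :
    dt (P K (r + s) i) (P K (r + t) j) (P K (r + u) k) =
      dt (P K s i) (P K t j) (P K u k) := by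
  rw [P_add, P_add, P_add, dt_iter]

section ineq

variable {K : ℝ} {M : ℕ}

lemma L1 (hK : 4 * (M : ℝ) + 4 ≤ K) (r : Fin 4) {i j k : ℕ} (hij : i < j) (hjk : j < k)
    (hk : k ≤ M) : 0 < dt (P K r i) (P K r j) (P K r k) := by
  have h := dt_shift K r 0 0 0 i j k
  simp only [add_zero] at h
  rw [h]
  have e : dt (P K 0 i) (P K 0 j) (P K 0 k) =
      K * ((j : ℝ) - i) * ((k : ℝ) - i) * ((k : ℝ) - j) := by
    simp [P, base, dt]; ring
  rw [e]
  have h1 : (i : ℝ) < j := by exact_mod_cast hij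
  have h2 : (j : ℝ) < k := by exact_mod_cast hjk
  have h0 : (0 : ℝ) ≤ M := Nat.cast_nonneg M
  have hK0 : 0 < K := by linarith
  have := mul_pos (mul_pos (mul_pos hK0 (sub_pos.2 h1)) (sub_pos.2 (h1.trans h2))) (sub_pos.2 h2)
  exact this

lemma L2 (hK : 4 * (M : ℝ) + 4 ≤ K) (r : Fin 4) {i j k : ℕ} (hij : i < j) (hj : j ≤ M)
    (hk : k ≤ M) : 0 < dt (P K r i) (P K r j) (P K (r + 1) k) := by
  have h := dt_shift K r 0 0 1 i j k
  simp only [add_zero] at h
  rw [h]
  have e : dt (P K 0 i) (P K 0 j) (P K 1 k) =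
      ((j : ℝ) - i) * (K * (K ^ 2 - K * k - i ^ 2) - (i + j) * (K ^ 2 + k ^ 2 - K * i)) := by
    simp [P, base, dt, rot]; ring
  rw [e]
  have h1 : (i : ℝ) < j := by exact_mod_cast hij
  have hjM : (j : ℝ) ≤ M := by exact_mod_cast hj
  have hkM : (k : ℝ) ≤ M := by exact_mod_cast hk
  have hi0 : (0 : ℝ) ≤ i := Nat.cast_nonneg i
  have hk0 : (0 : ℝ) ≤ k := Nat.cast_nonneg k
  have hM0 : (0 : ℝ) ≤ M := Nat.cast_nonneg M
  have hK0 : 0 < K := by linarith
  apply mul_pos (sub_pos.2 h1)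
  have hiM : (i : ℝ) ≤ M := by linarith
  have a1 : (i : ℝ) ^ 2 ≤ M ^ 2 := by nlinarith
  have a2 : (k : ℝ) ^ 2 ≤ M ^ 2 := by nlinarith
  have b1 : K * (K ^ 2 - K * M - M ^ 2) ≤ K * (K ^ 2 - K * k - i ^ 2) := by
    apply mul_le_mul_of_nonneg_left _ hK0.le
    nlinarith
  have b2 : ((i : ℝ) + j) * (K ^ 2 + k ^ 2 - K * i) ≤ (2 * M) * (K ^ 2 + M ^ 2) := by
    apply mul_le_mul
    · linarith
    · nlinarith [mul_nonneg hK0.le hi0]
    · nlinarith
    · positivity
  have b3 : (2 * (M : ℝ)) * (K ^ 2 + M ^ 2) < K * (K ^ 2 - K * M - M ^ 2) := by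
    have c1 : K * M ≤ K * (K - 4) / 4 := by nlinarith
    have c2 : (M : ℝ) ^ 2 ≤ K ^ 2 / 16 := by nlinarith
    have c3 : 0 < K ^ 2 := by positivity
    nlinarith [mul_pos hK0 c3, mul_nonneg hM0 c3.le]
  linarith

lemma L3 (hK : 4 * (M : ℝ) + 4 ≤ K) (r : Fin 4) {i j k : ℕ} (hij : i < j) (hj : j ≤ M)
    (hk : k ≤ M) : dt (P K r i) (P K r j) (P K (r + 2) k) < 0 := by
  have h := dt_shift K r 0 0 2 i j k
  simp only [add_zero] at h
  rw [h]
  have e : dt (P K 0 i) (P K 0 j) (P K 2 k) =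
      - (((j : ℝ) - i) * (K * (k ^ 2 + i ^ 2) + (i + j) * (2 * K ^ 2 - K * k - K * i))) := by
    simp [P, base, dt, rot]; ring
  rw [e]
  have h1 : (i : ℝ) < j := by exact_mod_cast hij
  have hjM : (j : ℝ) ≤ M := by exact_mod_cast hj
  have hkM : (k : ℝ) ≤ M := by exact_mod_cast hk
  have hi0 : (0 : ℝ) ≤ i := Nat.cast_nonneg i
  have hk0 : (0 : ℝ) ≤ k := Nat.cast_nonneg k
  have hM0 : (0 : ℝ) ≤ M := Nat.cast_nonneg M
  have hK0 : 0 < K := by linarith
  apply neg_neg_of_pos
  apply mul_pos (sub_pos.2 h1)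
  have hiM : (i : ℝ) ≤ M := by linarith
  have c : 0 < 2 * K ^ 2 - K * k - K * i := by nlinarith
  have d : 0 < (i : ℝ) + j := by linarith
  have e1 : 0 ≤ K * ((k : ℝ) ^ 2 + i ^ 2) := by positivity
  nlinarith [mul_pos d c]

lemma L4 (hK : 4 * (M : ℝ) + 4 ≤ K) (r : Fin 4) {i j k : ℕ} (hij : i < j) (hj : j ≤ M)
    (hk : k ≤ M) : dt (P K r i) (P K r j) (P K (r + 3) k) < 0 := by
  have h := dt_shift K r 0 0 3 i j k
  simp only [add_zero] at h
  rw [h]
  have e : dt (P K 0 i) (P K 0 j) (P K 3 k) =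
      - (((j : ℝ) - i) * ((i + j) * (K ^ 2 - k ^ 2 - K * i) + K * (K ^ 2 - K * k + i ^ 2))) := by
    simp [P, base, dt, rot]; ring
  rw [e]
  have h1 : (i : ℝ) < j := by exact_mod_cast hij
  have hjM : (j : ℝ) ≤ M := by exact_mod_cast hj
  have hkM : (k : ℝ) ≤ M := by exact_mod_cast hk
  have hi0 : (0 : ℝ) ≤ i := Nat.cast_nonneg i
  have hk0 : (0 : ℝ) ≤ k := Nat.cast_nonneg k
  have hM0 : (0 : ℝ) ≤ M := Nat.cast_nonneg M
  have hK0 : 0 < K := by linarith
  apply neg_neg_of_pos
  apply mul_pos (sub_pos.2 h1)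
  have hiM : (i : ℝ) ≤ M := by linarith
  have c : 0 < K ^ 2 - k ^ 2 - K * i := by nlinarith
  have c' : 0 < K ^ 2 - K * k + i ^ 2 := by nlinarith [sq_nonneg (i : ℝ)]
  have d : 0 < (i : ℝ) + j := by linarith
  nlinarith [mul_pos d c, mul_pos hK0 c']

lemma L5 (hK : 4 * (M : ℝ) + 4 ≤ K) (r : Fin 4) {i j k : ℕ} (hi : i ≤ M) (hj : j ≤ M)
    (hk : k ≤ M) : dt (P K r i) (P K (r + 1) j) (P K (r + 2) k) < 0 := by
  have h := dt_shift K r 0 1 2 i j k
  simp only [add_zero] at h
  rw [h]
  have e : dt (P K 0 i) (P K 1 j) (P K 2 k) =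
      - ((K ^ 2 - K * j - i ^ 2) * (2 * K ^ 2 - K * k - K * i) +
        (j ^ 2 + K ^ 2 - K * i) * (k ^ 2 + i ^ 2)) := by
    simp [P, base, dt, rot]; ring
  rw [e]
  have hiM : (i : ℝ) ≤ M := by exact_mod_cast hi
  have hjM : (j : ℝ) ≤ M := by exact_mod_cast hj
  have hkM : (k : ℝ) ≤ M := by exact_mod_cast hk
  have hi0 : (0 : ℝ) ≤ i := Nat.cast_nonneg i
  have hj0 : (0 : ℝ) ≤ j := Nat.cast_nonneg j
  have hk0 : (0 : ℝ) ≤ k := Nat.cast_nonneg k
  have hM0 : (0 : ℝ) ≤ M := Nat.cast_nonneg M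
  have hK0 : 0 < K := by linarith
  apply neg_neg_of_pos
  have c1 : 0 < K ^ 2 - K * j - i ^ 2 := by nlinarith
  have c2 : 0 < 2 * K ^ 2 - K * k - K * i := by nlinarith
  have c3 : 0 ≤ (j : ℝ) ^ 2 + K ^ 2 - K * i := by nlinarith [sq_nonneg (j : ℝ)]
  have c4 : 0 ≤ (k : ℝ) ^ 2 + (i : ℝ) ^ 2 := by positivity
  nlinarith [mul_pos c1 c2, mul_nonneg c3 c4]

lemma ne_same2 (hK : 4 * (M : ℝ) + 4 ≤ K) (r s : Fin 4) {i j k : ℕ} (hij : i ≠ j)
    (hs : s ≠ 0) (hi : i ≤ M) (hj : j ≤ M) (hk : k ≤ M) :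
    dt (P K r i) (P K r j) (P K (r + s) k) ≠ 0 := by
  rcases lt_or_gt_of_ne hij with h | h
  · fin_cases s
    · exact absurd rfl hs
    · exact (L2 hK r h hj hk).ne'
    · exact (L3 hK r h hj hk).ne
    · exact (L4 hK r h hj hk).ne
  · have e := dt_swap (P K r j) (P K r i) (P K (r + s) k)
    rw [e]
    apply neg_ne_zero.2
    fin_cases s
    · exact absurd rfl hs
    · exact (L2 hK r h hi hk).ne'
    · exact (L3 hK r h hi hk).ne
    · exact (L4 hK r h hi hk).ne

lemma ne_same3 (hK : 4 * (M : ℝ) + 4 ≤ K) (r : Fin 4) {i j k : ℕ} (hij : i ≠ j)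
    (hik : i ≠ k) (hjk : j ≠ k) (hi : i ≤ M) (hj : j ≤ M) (hk : k ≤ M) :
    dt (P K r i) (P K r j) (P K r k) ≠ 0 := by
  have key : ∀ {a b c : ℕ}, a < b → b < c → c ≤ M →
      dt (P K r a) (P K r b) (P K r c) ≠ 0 := fun h1 h2 h3 => (L1 hK r h1 h2 h3).ne'
  rcases lt_or_gt_of_ne hij with h1 | h1 <;> rcases lt_or_gt_of_ne hik with h2 | h2 <;>
    rcases lt_or_gt_of_ne hjk with h3 | h3
  · exact key h1 h3 hk
  · rw [dt_swap']
    exact neg_ne_zero.2 (key h2 h3 hj)
  · omega
  · rw [← dt_cyc']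
    exact key h2 h1 hj
  · rw [← neg_ne_zero, ← dt_swap]
    exact key h1 h2 hk
  · omega
  · rw [← dt_cyc]
    exact key h3 h2 hi
  · rw [← dt_cyc', ← neg_ne_zero, ← dt_swap']
    exact key h3 h1 hi

lemma gp (hK : 4 * (M : ℝ) + 4 ≤ K) (r s t : Fin 4) {i j k : ℕ}
    (h12 : (r, i) ≠ (s, j)) (h13 : (r, i) ≠ (t, k)) (h23 : (s, j) ≠ (t, k))
    (hi : i ≤ M) (hj : j ≤ M) (hk : k ≤ M) :
    dt (P K r i) (P K s j) (P K t k) ≠ 0 := by
  by_cases hrs : r = s
  · subst hrs
    have hij : i ≠ j := fun h => h12 (by rw [h])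
    by_cases hrt : r = t
    · subst hrt
      exact ne_same3 hK r hij (fun h => h13 (by rw [h])) (fun h => h23 (by rw [h])) hi hj hk
    · have := ne_same2 hK r (t - r) hij (sub_ne_zero.2 (Ne.symm hrt)) hi hj hk
      rwa [add_sub_cancel] at this
  · by_cases hrt : r = t
    · subst hrt
      have hik : i ≠ k := fun h => h13 (by rw [h])
      rw [← dt_cyc']
      have := ne_same2 hK r (s - r) (Ne.symm hik) (sub_ne_zero.2 (Ne.symm hrs)) hk hi hj
      rwa [add_sub_cancel] at this
    · by_cases hst : s = t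
      · subst hst
        have hjk : j ≠ k := fun h => h23 (by rw [h])
        rw [← dt_cyc]
        have := ne_same2 hK s (r - s) hjk (sub_ne_zero.2 hrs) hj hk hi
        rwa [add_sub_cancel] at this
      · -- three distinct arms
        have h5 : ∀ (u : Fin 4) {a b c : ℕ}, a ≤ M → b ≤ M → c ≤ M →
            dt (P K u a) (P K (u + 1) b) (P K (u + 2) c) ≠ 0 :=
          fun u _ _ _ ha hb hc => (L5 hK u ha hb hc).ne
        obtain ⟨a, rfl⟩ : ∃ a, s = r + a := ⟨s - r, by abel⟩
        obtain ⟨b, rfl⟩ : ∃ b, t = r + b := ⟨t - r, by abel⟩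
        have ha : a ≠ 0 := fun h => hrs (by simp [h])
        have hb : b ≠ 0 := fun h => hrt (by simp [h])
        have hab : a ≠ b := fun h => hst (by rw [h])
        have e1 : ∀ u : Fin 4, u + 3 + 1 = u := by decide
        have e2 : ∀ u : Fin 4, u + 3 + 2 = u + 1 := by decide
        have e3 : ∀ u : Fin 4, u + 2 + 1 = u + 3 := by decide
        have e4 : ∀ u : Fin 4, u + 2 + 2 = u := by decide
        fin_cases a <;> fin_cases b <;> first
          | exact absurd rfl ha
          | exact absurd rfl hb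
          | exact absurd rfl hab
          | skip
        · exact h5 r hi hj hk
        · have := h5 (r + 3) hk hi hj
          rw [e1, e2] at this
          rw [← dt_cyc']
          exact this
        · rw [← neg_ne_zero, ← dt_swap']
          exact h5 r hi hk hj
        · have := h5 (r + 2) hj hk hi
          rw [e3, e4] at this
          rw [← dt_cyc]
          exact this
        · have := h5 (r + 3) hj hi hk
          rw [e1, e2] at this
          rw [← neg_ne_zero, ← dt_swap]
          exact this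
        · have := h5 (r + 2) hk hj hi
          rw [e3, e4] at this
          rw [← dt_cyc', ← neg_ne_zero, ← dt_swap']
          exact this

/-- inner points of an arm, next two arms occupied -/
lemma T1 (hK : 4 * (M : ℝ) + 4 ≤ K) (r : Fin 4) {n i e s : ℕ} (hni : n < i) (hi : i ≤ M)
    (he : e ≤ M) (hs : s ≤ M) : P K r i ∈
      convexHull ℝ ({P K r n, P K (r + 1) e, P K (r + 2) s} : Set (ℝ × ℝ)) := by
  have hn : n ≤ M := by omega
  apply mem_tri
  · exact L5 hK r hn he hs
  · rw [dt_swap']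
    have := L2 hK r hni hi he
    linarith
  · rw [dt_cyc]
    exact (L5 hK r hi he hs).le
  · have := L3 hK r hni hi hs
    rw [dt_cyc']
    exact this.le

/-- inner points of an arm, both neighbours occupied -/
lemma T2 (hK : 4 * (M : ℝ) + 4 ≤ K) (r : Fin 4) {n i e w : ℕ} (hni : n < i) (hi : i ≤ M)
    (he : e ≤ M) (hw : w ≤ M) : P K r i ∈
      convexHull ℝ ({P K r n, P K (r + 1) e, P K (r + 3) w} : Set (ℝ × ℝ)) := by
  have hn : n ≤ M := by omega
  have e1 : r + 3 + 1 = r := by revert r; decide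
  have e2 : r + 3 + 2 = r + 1 := by revert r; decide
  apply mem_tri
  · have := L5 hK (r + 3) hw hn he
    rw [e1, e2, ] at this
    rw [← dt_cyc']
    exact this
  · rw [dt_swap']
    have := L2 hK r hni hi he
    linarith
  · have := L5 hK (r + 3) hw hi he
    rw [e1, e2] at this
    rw [dt_cyc]
    rw [← dt_cyc']
    exact this.le
  · have := L4 hK r hni hi hw
    rw [dt_cyc']
    exact this.le

/-- inner points of an arm, opposite arm occupied, using the last point of the arm -/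
lemma T3 (hK : 4 * (M : ℝ) + 4 ≤ K) (r : Fin 4) {a i b s : ℕ} (hai : a < i) (hib : i < b)
    (hb : b ≤ M) (hs : s ≤ M) : P K r i ∈
      convexHull ℝ ({P K r a, P K r b, P K (r + 2) s} : Set (ℝ × ℝ)) := by
  have hi : i ≤ M := by omega
  apply mem_tri
  · exact L3 hK r (hai.trans hib) hb hs
  · rw [dt_swap']
    have := L1 hK r hai hib hb
    linarith
  · have := L3 hK r hib hb hs
    rw [dt_cyc]
    exact this.le
  · have := L3 hK r hai hi hs
    rw [dt_cyc']
    exact this.le

lemma P_inj (hK : 4 * (M : ℝ) + 4 ≤ K) {r s : Fin 4} {i j : ℕ} (hi : i ≤ M) (hj : j ≤ M)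
    (h : P K r i = P K s j) : (r, i) = (s, j) := by
  by_contra hne
  have h4 : ∀ r s : Fin 4, ∃ t : Fin 4, t ≠ r ∧ t ≠ s := by decide
  obtain ⟨t, ht1, ht2⟩ := h4 r s
  have := gp hK r s t (k := 0) hne (fun h => ht1 (by rw [Prod.ext_iff] at h; exact h.1.symm))
    (fun h => ht2 (by rw [Prod.ext_iff] at h; exact h.1.symm)) hi hj (Nat.zero_le _)
  apply this
  rw [h]
  simp [dt]

end ineq

/-- sizes of the four arms -/
def sz (m : ℕ) (r : Fin 4) : ℕ := if r = 0 ∨ r = 2 then m / 2 else m - m / 2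

lemma sz_le (m : ℕ) (r : Fin 4) : sz m r ≤ m := by
  unfold sz; split_ifs <;> omega

lemma sz_sum (m : ℕ) : ∑ r : Fin 4, sz m r = 2 * m := by
  rw [Fin.sum_univ_four]
  simp [sz]
  omega

/-- index set -/
def I (m : ℕ) : Finset (Σ _ : Fin 4, ℕ) := Finset.univ.sigma (fun r => Finset.range (sz m r))

open Classical in
/-- the configuration -/
noncomputable def A (m : ℕ) : Finset (ℝ × ℝ) :=
  (I m).image (fun x => P (4 * (m : ℝ) + 4) x.1 x.2)

lemma card_A (m : ℕ) : (A m).card = 2 * m := by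
  classical
  unfold A
  rw [Finset.card_image_of_injOn]
  · unfold I
    rw [Finset.card_sigma]
    simp [sz_sum]
  · intro x hx y hy hxy
    have hx' : x.2 ≤ m := by
      have : x.2 < sz m x.1 := by simpa [I] using hx
      have := sz_le m x.1
      omega
    have hy' : y.2 ≤ m := by
      have : y.2 < sz m y.1 := by simpa [I] using hy
      have := sz_le m y.1
      omega
    have := P_inj le_rfl hx' hy' hxy
    rw [Prod.ext_iff] at this
    obtain ⟨x1, x2⟩ := x
    obtain ⟨y1, y2⟩ := y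
    simp only at this
    obtain ⟨rfl, rfl⟩ := this
    rfl

lemma mem_A {m : ℕ} {x : ℝ × ℝ} (hx : x ∈ A m) :
    ∃ r : Fin 4, ∃ i : ℕ, i < sz m r ∧ x = P (4 * (m : ℝ) + 4) r i := by
  classical
  unfold A at hx
  rw [Finset.mem_image] at hx
  obtain ⟨⟨r, i⟩, h, rfl⟩ := hx
  exact ⟨r, i, by simpa [I] using h, rfl⟩

lemma gp_A {m : ℕ} {a b c : ℝ × ℝ} (ha : a ∈ A m) (hb : b ∈ A m) (hc : c ∈ A m)
    (hab : a ≠ b) (hac : a ≠ c) (hbc : b ≠ c) :
    ¬ Collinear ℝ ({a, b, c} : Set (ℝ × ℝ)) := by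
  intro h
  have h0 := dt_of_collinear h
  obtain ⟨r, i, hi, rfl⟩ := mem_A ha
  obtain ⟨s, j, hj, rfl⟩ := mem_A hb
  obtain ⟨t, k, hk, rfl⟩ := mem_A hc
  have := sz_le m r
  have := sz_le m s
  have := sz_le m t
  refine gp (M := m) le_rfl r s t ?_ ?_ ?_ (by omega) (by omega) (by omega) h0
  · intro h; rw [Prod.mk.injEq] at h; apply hab; rw [h.1, h.2]
  · intro h; rw [Prod.mk.injEq] at h; apply hac; rw [h.1, h.2]
  · intro h; rw [Prod.mk.injEq] at h; apply hbc; rw [h.1, h.2]

lemma count4 : ∀ o : Fin 4 → Bool,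
    (Finset.univ.filter (fun r => o r = true)).card +
      (Finset.univ.filter (fun r => o r = true ∧ o (r + 1) = false)).card ≤ 4 := by
  decide

theorem hull_le_four {m : ℕ} {S : Finset (ℝ × ℝ)} (hS : S ⊆ A m) (hcard : m < S.card) :
    (Set.extremePoints ℝ (convexHull ℝ (S : Set (ℝ × ℝ)))).ncard ≤ 4 := by
  classical
  set K : ℝ := 4 * (m : ℝ) + 4 with hKdef
  have hK : 4 * (m : ℝ) + 4 ≤ K := le_rfl
  set idx : Fin 4 → Finset ℕ := fun r => (Finset.range (sz m r)).filter (fun i => P K r i ∈ S)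
    with hidx
  have idx_le : ∀ r i, i ∈ idx r → i ≤ m := by
    intro r i hi
    simp only [hidx, Finset.mem_filter, Finset.mem_range] at hi
    have := sz_le m r
    omega
  have idx_mem : ∀ r i, i ∈ idx r → P K r i ∈ S := by
    intro r i hi
    simp only [hidx, Finset.mem_filter] at hi
    exact hi.2
  have ex : ∀ x ∈ S, ∃ r i, i ∈ idx r ∧ x = P K r i := by
    intro x hx
    obtain ⟨r, i, hi, rfl⟩ := mem_A (hS hx)
    refine ⟨r, i, ?_, rfl⟩
    simp only [hidx, Finset.mem_filter, Finset.mem_range]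
    exact ⟨hi, hx⟩
  -- counting: an opposite pair of arms is occupied
  have hopp : ∃ r, (idx r).Nonempty ∧ (idx (r + 2)).Nonempty := by
    by_contra hno
    push Not at hno
    have hsub : S ⊆ Finset.univ.biUnion (fun r => (idx r).image (fun i => P K r i)) := by
      intro x hx
      obtain ⟨r, i, hi, rfl⟩ := ex x hx
      rw [Finset.mem_biUnion]
      exact ⟨r, Finset.mem_univ _, Finset.mem_image_of_mem _ hi⟩
    have h1 : S.card ≤ ∑ r : Fin 4, (idx r).card := by
      refine (Finset.card_le_card hsub).trans (Finset.card_biUnion_le.trans ?_)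
      exact Finset.sum_le_sum fun r _ => Finset.card_image_le
    have h2 : ∀ r, (idx r).card ≤ sz m r := by
      intro r
      refine (Finset.card_filter_le _ _).trans ?_
      simp
    rw [Fin.sum_univ_four] at h1
    have a0 := h2 0
    have a1 := h2 1
    have a2 := h2 2
    have a3 := h2 3
    have s0 : sz m 0 = m / 2 := by simp [sz]
    have s1 : sz m 1 = m - m / 2 := by simp [sz]
    have s2 : sz m 2 = m / 2 := by simp [sz]
    have s3 : sz m 3 = m - m / 2 := by simp [sz]
    rw [s0] at a0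
    rw [s1] at a1
    rw [s2] at a2
    rw [s3] at a3
    have z0 : (idx 0).card = 0 ∨ (idx 2).card = 0 := by
      by_cases h : (idx 0).Nonempty
      · right
        have := hno 0 h
        simpa using this
      · left
        rw [Finset.not_nonempty_iff_eq_empty] at h
        simp [h]
    have z1 : (idx 1).card = 0 ∨ (idx 3).card = 0 := by
      by_cases h : (idx 1).Nonempty
      · right
        have := hno 1 h
        simpa using this
      · left
        rw [Finset.not_nonempty_iff_eq_empty] at h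
        simp [h]
    rcases z0 with z0 | z0 <;> rcases z1 with z1 | z1 <;> rw [z0, z1] at h1 <;> omega
  set mn : Fin 4 → ℕ := fun r => if h : (idx r).Nonempty then (idx r).min' h else 0 with hmn
  set mx : Fin 4 → ℕ := fun r => if h : (idx r).Nonempty then (idx r).max' h else 0 with hmx
  have mn_mem : ∀ r, (idx r).Nonempty → mn r ∈ idx r := by
    intro r h
    simp only [hmn, dif_pos h]
    exact Finset.min'_mem _ _
  have mx_mem : ∀ r, (idx r).Nonempty → mx r ∈ idx r := by
    intro r h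
    simp only [hmx, dif_pos h]
    exact Finset.max'_mem _ _
  have mn_le : ∀ r i, i ∈ idx r → mn r ≤ i := by
    intro r i hi
    have h : (idx r).Nonempty := ⟨i, hi⟩
    simp only [hmn, dif_pos h]
    exact Finset.min'_le _ _ hi
  have le_mx : ∀ r i, i ∈ idx r → i ≤ mx r := by
    intro r i hi
    have h : (idx r).Nonempty := ⟨i, hi⟩
    simp only [hmx, dif_pos h]
    exact Finset.le_max' _ _ hi
  set V : Finset (ℝ × ℝ) :=
    (Finset.univ.filter (fun r => (idx r).Nonempty)).image (fun r => P K r (mn r)) ∪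
    (Finset.univ.filter (fun r => (idx r).Nonempty ∧ ¬ (idx (r + 1)).Nonempty)).image
      (fun r => P K r (mx r)) with hV
  have V1 : ∀ r, (idx r).Nonempty → P K r (mn r) ∈ V := by
    intro r h
    rw [hV]
    apply Finset.mem_union_left
    exact Finset.mem_image_of_mem _ (by simp [h])
  have V2 : ∀ r, (idx r).Nonempty → ¬ (idx (r + 1)).Nonempty → P K r (mx r) ∈ V := by
    intro r h h'
    rw [hV]
    apply Finset.mem_union_right
    exact Finset.mem_image_of_mem _ (by simp only [Finset.mem_filter, Finset.mem_univ, true_and]; exact ⟨h, h'⟩)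
  have hVcard : V.card ≤ 4 := by
    rw [hV]
    refine (Finset.card_union_le _ _).trans ?_
    refine (Nat.add_le_add Finset.card_image_le Finset.card_image_le).trans ?_
    have := count4 (fun r => decide ((idx r).Nonempty))
    simpa using this
  have hVS : (V : Set (ℝ × ℝ)) ⊆ S := by
    intro x hx
    rw [Finset.mem_coe, hV, Finset.mem_union, Finset.mem_image, Finset.mem_image] at hx
    rcases hx with ⟨r, hr, rfl⟩ | ⟨r, hr, rfl⟩
    · simp only [Finset.mem_filter, Finset.mem_univ, true_and] at hr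
      exact idx_mem _ _ (mn_mem r hr)
    · simp only [Finset.mem_filter, Finset.mem_univ, true_and] at hr
      exact idx_mem _ _ (mx_mem r hr.1)
  have tri : ∀ {a b c x : ℝ × ℝ}, a ∈ V → b ∈ V → c ∈ V →
      x ∈ convexHull ℝ ({a, b, c} : Set (ℝ × ℝ)) → x ∈ convexHull ℝ (V : Set (ℝ × ℝ)) := by
    intro a b c x ha hb hc hx
    refine convexHull_mono ?_ hx
    intro y hy
    simp only [Set.mem_insert_iff, Set.mem_singleton_iff] at hy
    rcases hy with rfl | rfl | rfl
    · exact ha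
    · exact hb
    · exact hc
  have hSV : (S : Set (ℝ × ℝ)) ⊆ convexHull ℝ (V : Set (ℝ × ℝ)) := by
    intro x hx
    obtain ⟨r, i, hi, rfl⟩ := ex x hx
    have hr : (idx r).Nonempty := ⟨i, hi⟩
    obtain ⟨r0, h0, h2⟩ := hopp
    obtain ⟨d, rfl⟩ : ∃ d, r0 = r + d := ⟨r0 - r, by abel⟩
    have f12 : ∀ r : Fin 4, r + 1 + 2 = r + 3 := by decide
    have f32 : ∀ r : Fin 4, r + 3 + 2 = r + 1 := by decide
    have e12 := f12 r
    have e32 := f32 r
    rcases (mn_le r i hi).eq_or_lt with heq | hlt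
    · rw [← heq]
      exact subset_convexHull ℝ _ (V1 r hr)
    · have him := idx_le r i hi
      by_cases h1 : (idx (r + 1)).Nonempty
      · have m1 := idx_le _ _ (mn_mem _ h1)
        by_cases h2' : (idx (r + 2)).Nonempty
        · have m2 := idx_le _ _ (mn_mem _ h2')
          exact tri (V1 r hr) (V1 _ h1) (V1 _ h2') (T1 hK r hlt him m1 m2)
        · have h3 : (idx (r + 3)).Nonempty := by
            fin_cases d
            · simp only [Fin.zero_eta, add_zero] at h2
              exact absurd h2 h2'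
            · simp only [Fin.mk_one] at h2
              rwa [e12] at h2
            · exact absurd h0 h2'
            · exact h0
          have m3 := idx_le _ _ (mn_mem _ h3)
          exact tri (V1 r hr) (V1 _ h1) (V1 _ h3) (T2 hK r hlt him m1 m3)
      · have h2' : (idx (r + 2)).Nonempty := by
          fin_cases d
          · simpa using h2
          · exact absurd h0 h1
          · exact h0
          · exfalso
            apply h1
            have : r + (3 : Fin 4) + 2 = r + 1 := e32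
            rw [← this]
            exact h2
        have m2 := idx_le _ _ (mn_mem _ h2')
        rcases (le_mx r i hi).eq_or_lt with heq | hlt'
        · rw [heq]
          exact subset_convexHull ℝ _ (V2 r hr h1)
        · exact tri (V1 r hr) (V2 r hr h1) (V1 _ h2')
            (T3 hK r hlt hlt' (idx_le _ _ (mx_mem r hr)) m2)
  have heq : convexHull ℝ (S : Set (ℝ × ℝ)) = convexHull ℝ (V : Set (ℝ × ℝ)) :=
    Set.Subset.antisymm (convexHull_min hSV (convex_convexHull ℝ _)) (convexHull_mono hVS)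
  rw [heq]
  calc (Set.extremePoints ℝ (convexHull ℝ (V : Set (ℝ × ℝ)))).ncard
      ≤ (V : Set (ℝ × ℝ)).ncard :=
        Set.ncard_le_ncard extremePoints_convexHull_subset V.finite_toSet
    _ = V.card := Set.ncard_coe_finset V
    _ ≤ 4 := hVcard

/-- the lower bound half of the statement -/
theorem lower (n : ℕ) (hn : 5 ≤ n) (N : ℕ)
    (hN : ∀ A : Finset (ℝ × ℝ), A.card = N →
      (∀ a ∈ A, ∀ b ∈ A, ∀ c ∈ A, a ≠ b → a ≠ c → b ≠ c →
        ¬ Collinear ℝ ({a, b, c} : Set (ℝ × ℝ))) →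
      ∃ S ⊆ A, S.card = n ∧
        5 ≤ (Set.extremePoints ℝ (convexHull ℝ (S : Set (ℝ × ℝ)))).ncard) :
    2 * n - 1 ≤ N := by
  by_contra hlt
  push Not at hlt
  have hle : N ≤ (A (n - 1)).card := by rw [card_A]; omega
  obtain ⟨B, hB, hBc⟩ := Finset.exists_subset_card_eq hle
  obtain ⟨S, hS, hSc, h5⟩ := hN B hBc (fun a ha b hb c hc => gp_A (hB ha) (hB hb) (hB hc))
  have := hull_le_four (hS.trans hB) (by omega : n - 1 < S.card)
  omega

end Pool.Agent.G5.Lower
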