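import Pool.Agent.Lib_helper61.G5.Lower

/-!
# MP_022ed3_co: planar tools: extreme points of hulls of finite sets, convex pentagons
-/

set_option autoImplicit false

namespace Pool.Agent.G5.Planar

open Pool.Agent.G5.Lower

/-- a point of `S` which is the strict minimum of a linear functional on `S` is extreme -/
theorem mem_extreme_of_lt {S : Finset (ℝ × ℝ)} {x : ℝ × ℝ} (hx : x ∈ S)
    (f : (ℝ × ℝ) →ₗ[ℝ] ℝ) (hf : ∀ y ∈ S, y ≠ x → f x < f y) :
    x ∈ Set.extremePoints ℝ (convexHull ℝ (S : Set (ℝ × ℝ))) := by
  -- points of the hull with minimal value are equal to x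
  have key : ∀ y ∈ convexHull ℝ (S : Set (ℝ × ℝ)), f x ≤ f y ∧ (f y = f x → y = x) := by
    intro y hy
    rw [Finset.mem_convexHull'] at hy
    obtain ⟨w, hw0, hw1, rfl⟩ := hy
    have hfy : f (∑ z ∈ S, w z • z) = ∑ z ∈ S, w z * f z := by
      rw [map_sum]; simp
    have hfx : f x = ∑ z ∈ S, w z * f x := by
      rw [← Finset.sum_mul, hw1, one_mul]
    have hdiff : f (∑ z ∈ S, w z • z) - f x = ∑ z ∈ S, w z * (f z - f x) := by
      rw [hfy]
      conv_lhs => rw [hfx]
      rw [← Finset.sum_sub_distrib]
      exact Finset.sum_congr rfl fun z _ => by ring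
    have hnn : ∀ z ∈ S, 0 ≤ w z * (f z - f x) := by
      intro z hz
      by_cases hzx : z = x
      · simp [hzx]
      · exact mul_nonneg (hw0 z hz) (sub_nonneg.2 (hf z hz hzx).le)
    constructor
    · have := Finset.sum_nonneg hnn
      linarith
    · intro heq
      have h0 : ∑ z ∈ S, w z * (f z - f x) = 0 := by rw [← hdiff, heq]; ring
      have hz0 := (Finset.sum_eq_zero_iff_of_nonneg hnn).1 h0
      have hw : ∀ z ∈ S, z ≠ x → w z = 0 := by
        intro z hz hzx
        have h1 := hz0 z hz
        have h2 : f z - f x ≠ 0 := (sub_pos.2 (hf z hz hzx)).ne'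
        exact (mul_eq_zero.1 h1).resolve_right h2
      have hsum : ∑ z ∈ S, w z • z = w x • x := by
        apply Finset.sum_eq_single x
        · intro z hz hzx
          rw [hw z hz hzx, zero_smul]
        · intro h; exact absurd hx h
      have hsum1 : ∑ z ∈ S, w z = w x := by
        apply Finset.sum_eq_single x
        · intro z hz hzx
          exact hw z hz hzx
        · intro h; exact absurd hx h
      rw [hsum, ← hsum1, hw1, one_smul]
  rw [mem_extremePoints]
  refine ⟨subset_convexHull ℝ _ hx, ?_⟩
  intro y hy z hz hxyz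
  obtain ⟨a, b, ha, hb, hab, rfl⟩ := hxyz
  obtain ⟨hy1, hy2⟩ := key y hy
  obtain ⟨hz1, hz2⟩ := key z hz
  have hfab : f (a • y + b • z) = a * f y + b * f z := by simp
  rw [hfab] at hy1 hz1
  have hb' : b = 1 - a := by linarith
  have hyz : f z ≤ f y := by
    have h1 : b * (f z - f y) ≤ 0 := by
      have : b * (f z - f y) = a * f y + b * f z - f y := by rw [hb']; ring
      linarith
    by_contra hcon
    have := mul_pos hb (sub_pos.2 (not_le.1 hcon))
    linarith
  have hzy : f y ≤ f z := by
    have h1 : a * (f y - f z) ≤ 0 := by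
      have : a * (f y - f z) = a * f y + b * f z - f z := by rw [hb']; ring
      linarith
    by_contra hcon
    have := mul_pos ha (sub_pos.2 (not_le.1 hcon))
    linarith
  have hyeq : f y = f z := le_antisymm hzy hyz
  have e1 : f y = f (a • y + b • z) := by
    rw [hfab, ← hyeq, ← add_mul, hab, one_mul]
  have e2 : f z = f (a • y + b • z) := by
    rw [hfab, hyeq, ← add_mul, hab, one_mul]
  exact ⟨hy2 e1, hz2 e2⟩

/-- number of extreme points -/
theorem le_ncard_extreme {S : Finset (ℝ × ℝ)} {T : Finset (ℝ × ℝ)}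
    (h : ∀ x ∈ T, x ∈ Set.extremePoints ℝ (convexHull ℝ (S : Set (ℝ × ℝ)))) :
    T.card ≤ (Set.extremePoints ℝ (convexHull ℝ (S : Set (ℝ × ℝ)))).ncard := by
  rw [← Set.ncard_coe_finset]
  apply Set.ncard_le_ncard
  · intro x hx; exact h x hx
  · exact S.finite_toSet.subset extremePoints_convexHull_subset

/-- the linear functional `dt a b · ` up to a constant -/
def lin (a b : ℝ × ℝ) : (ℝ × ℝ) →ₗ[ℝ] ℝ where
  toFun c := (b.1 - a.1) * c.2 - (b.2 - a.2) * c.1
  map_add' := by intro x y; simp; ring
  map_smul' := by intro r x; simp; ring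

lemma lin_sub (a b c d : ℝ × ℝ) : lin a b c - lin a b d = dt a b c - dt a b d := by
  simp [lin, dt]; ring

/-- a point strictly on the negative side of a line, the others weakly on the positive side -/
theorem mem_extreme_of_line {S : Finset (ℝ × ℝ)} {x a b : ℝ × ℝ} (hx : x ∈ S)
    (hneg : dt a b x < 0) (hpos : ∀ y ∈ S, y ≠ x → 0 ≤ dt a b y) :
    x ∈ Set.extremePoints ℝ (convexHull ℝ (S : Set (ℝ × ℝ))) := by
  apply mem_extreme_of_lt hx (lin a b)
  intro y hy hyx
  have h1 := lin_sub a b y x
  have h2 := hpos y hy hyx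
  linarith

lemma ne_of_dt {a b c : ℝ × ℝ} (h : dt a b c ≠ 0) : a ≠ b ∧ a ≠ c ∧ b ≠ c := by
  refine ⟨?_, ?_, ?_⟩
  · rintro rfl; apply h; simp [dt]
  · rintro rfl; apply h; simp [dt]
  · rintro rfl; apply h; simp [dt]; ring

open Classical in
/-- five points in counterclockwise convex position -/
theorem pentagon {p0 p1 p2 p3 p4 : ℝ × ℝ} (h012 : 0 < dt p0 p1 p2) (h013 : 0 < dt p0 p1 p3)
    (h014 : 0 < dt p0 p1 p4) (h023 : 0 < dt p0 p2 p3) (h024 : 0 < dt p0 p2 p4)
    (h034 : 0 < dt p0 p3 p4) (h123 : 0 < dt p1 p2 p3) (h124 : 0 < dt p1 p2 p4)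
    (h134 : 0 < dt p1 p3 p4) (h234 : 0 < dt p2 p3 p4) :
    ({p0, p1, p2, p3, p4} : Finset (ℝ × ℝ)).card = 5 ∧
    5 ≤ (Set.extremePoints ℝ (convexHull ℝ
      ((({p0, p1, p2, p3, p4} : Finset (ℝ × ℝ))) : Set (ℝ × ℝ)))).ncard := by
  have n01 := (ne_of_dt h012.ne').1
  have n02 := (ne_of_dt h012.ne').2.1
  have n12 := (ne_of_dt h012.ne').2.2
  have n03 := (ne_of_dt h013.ne').2.1
  have n13 := (ne_of_dt h013.ne').2.2
  have n04 := (ne_of_dt h014.ne').2.1
  have n14 := (ne_of_dt h014.ne').2.2
  have n23 := (ne_of_dt h023.ne').2.2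
  have n24 := (ne_of_dt h024.ne').2.2
  have n34 := (ne_of_dt h034.ne').2.2
  have hc : ({p0, p1, p2, p3, p4} : Finset (ℝ × ℝ)).card = 5 := by
    rw [Finset.card_insert_of_notMem, Finset.card_insert_of_notMem,
      Finset.card_insert_of_notMem, Finset.card_pair n34] <;> simp [*]
  refine ⟨hc, ?_⟩
  have := le_ncard_extreme (S := {p0, p1, p2, p3, p4}) (T := {p0, p1, p2, p3, p4}) ?_
  · rwa [hc] at this
  intro x hx
  have sw := dt_swap'
  simp only [Finset.mem_insert, Finset.mem_singleton] at hx
  rcases hx with rfl | rfl | rfl | rfl | rfl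
  · -- p0: line p4 p1
    apply mem_extreme_of_line (a := p4) (b := p1) (by simp)
    · unfold dt at *; linarith
    · intro y hy _
      simp only [Finset.mem_insert, Finset.mem_singleton] at hy
      rcases hy with rfl | rfl | rfl | rfl | rfl
      · exact absurd rfl ‹_›
      all_goals (unfold dt at *; linarith)
  · apply mem_extreme_of_line (a := p0) (b := p2) (by simp)
    · unfold dt at *; linarith
    · intro y hy _
      simp only [Finset.mem_insert, Finset.mem_singleton] at hy
      rcases hy with rfl | rfl | rfl | rfl | rfl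
      · unfold dt at *; linarith
      · exact absurd rfl ‹_›
      all_goals (unfold dt at *; linarith)
  · apply mem_extreme_of_line (a := p1) (b := p3) (by simp)
    · unfold dt at *; linarith
    · intro y hy _
      simp only [Finset.mem_insert, Finset.mem_singleton] at hy
      rcases hy with rfl | rfl | rfl | rfl | rfl
      · unfold dt at *; linarith
      · unfold dt at *; linarith
      · exact absurd rfl ‹_›
      all_goals (unfold dt at *; linarith)
  · apply mem_extreme_of_line (a := p2) (b := p4) (by simp)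
    · unfold dt at *; linarith
    · intro y hy _
      simp only [Finset.mem_insert, Finset.mem_singleton] at hy
      rcases hy with rfl | rfl | rfl | rfl | rfl
      · unfold dt at *; linarith
      · unfold dt at *; linarith
      · unfold dt at *; linarith
      · exact absurd rfl ‹_›
      all_goals (unfold dt at *; linarith)
  · apply mem_extreme_of_line (a := p3) (b := p0) (by simp)
    · unfold dt at *; linarith
    · intro y hy _
      simp only [Finset.mem_insert, Finset.mem_singleton] at hy
      rcases hy with rfl | rfl | rfl | rfl | rfl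
      · unfold dt at *; linarith
      · unfold dt at *; linarith
      · unfold dt at *; linarith
      · unfold dt at *; linarith
      · exact absurd rfl ‹_›

section sig

variable {a b c d : ℝ × ℝ}

/-- signotope relations for four points with increasing abscissa -/
lemma sig012 :
    (d.1 - a.1) * dt a b c - (c.1 - a.1) * dt a b d + (b.1 - a.1) * dt a c d = 0 := by
  unfold dt; ring
lemma sig013 :
    (d.1 - b.1) * dt a b c - (c.1 - b.1) * dt a b d + (b.1 - a.1) * dt b c d = 0 := by
  unfold dt; ring
lemma sig023 :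
    (d.1 - c.1) * dt a b c - (c.1 - b.1) * dt a c d + (c.1 - a.1) * dt b c d = 0 := by
  unfold dt; ring
lemma sig123 :
    (d.1 - c.1) * dt a b d - (d.1 - b.1) * dt a c d + (d.1 - a.1) * dt b c d = 0 := by
  unfold dt; ring

end sig

end Pool.Agent.G5.Planar
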