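import Pool.Agent.Lib_helper61.G5.Core

/-!
# MP_022ed3_co: quadrilateral hull
-/

set_option autoImplicit false

namespace Pool.Agent.G5.Quad

open Pool.Agent.G5.Lower Pool.Agent.G5.Planar Pool.Agent.G5.Core

/-- the hull of `P` is the quadrilateral `a b c d`, counterclockwise for `D s` -/
structure Conf (s : ℝ) (P : Finset (ℝ × ℝ)) (a b c d : ℝ × ℝ) : Prop where
  hs : s ≠ 0
  gen : Gen P
  ha : a ∈ P
  hb : b ∈ P
  hc : c ∈ P
  hd : d ∈ P
  ab : a ≠ b
  bc : b ≠ c
  cd : c ≠ d
  da : d ≠ a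
  ac : a ≠ c
  bd : b ≠ d
  eab : ∀ z ∈ P, z ≠ a → z ≠ b → 0 < D s a b z
  ebc : ∀ z ∈ P, z ≠ b → z ≠ c → 0 < D s b c z
  ecd : ∀ z ∈ P, z ≠ c → z ≠ d → 0 < D s c d z
  eda : ∀ z ∈ P, z ≠ d → z ≠ a → 0 < D s d a z

section conf

variable {s : ℝ} {P : Finset (ℝ × ℝ)} {a b c d : ℝ × ℝ}

lemma Conf.rot (h : Conf s P a b c d) : Conf s P b c d a :=
  ⟨h.hs, h.gen, h.hb, h.hc, h.hd, h.ha, h.bc, h.cd, h.da, h.ab, h.bd, h.ac.symm,
    h.ebc, h.ecd, h.eda, h.eab⟩

lemma Conf.refl (h : Conf s P a b c d) : Conf (-s) P a d c b :=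
  ⟨neg_ne_zero.2 h.hs, h.gen, h.ha, h.hd, h.hc, h.hb, h.da.symm, h.cd.symm, h.bc.symm,
    h.ab.symm, h.ac, h.bd.symm,
    fun z hz h1 h2 => by have := h.eda z hz h2 h1; rw [D_neg, D_swap]; linarith,
    fun z hz h1 h2 => by have := h.ecd z hz h2 h1; rw [D_neg, D_swap]; linarith,
    fun z hz h1 h2 => by have := h.ebc z hz h2 h1; rw [D_neg, D_swap]; linarith,
    fun z hz h1 h2 => by have := h.eab z hz h2 h1; rw [D_neg, D_swap]; linarith⟩

lemma Conf.exta (h : Conf s P a b c d) : ExtP P a := edge_ext h.ha h.hb h.ab h.eab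
lemma Conf.extb (h : Conf s P a b c d) : ExtP P b := h.rot.exta
lemma Conf.extc (h : Conf s P a b c d) : ExtP P c := h.rot.rot.exta
lemma Conf.extd (h : Conf s P a b c d) : ExtP P d := h.rot.rot.rot.exta

end conf

open Classical in
/-- the cone of `q` containing `c` -/
noncomputable def CC (s : ℝ) (b d : ℝ × ℝ) (P : Finset (ℝ × ℝ)) (q : ℝ × ℝ) :
    Finset (ℝ × ℝ) :=
  P.filter (fun z => D s b q z < 0 ∧ D s q d z < 0)

open Classical in
/-- the cone of `q` containing `a` -/
noncomputable def AA (s : ℝ) (b d : ℝ × ℝ) (P : Finset (ℝ × ℝ)) (q : ℝ × ℝ) :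
    Finset (ℝ × ℝ) :=
  P.filter (fun z => 0 < D s b q z ∧ 0 < D s q d z)

section cones

variable {s : ℝ} {P : Finset (ℝ × ℝ)} {a b c d q z : ℝ × ℝ}

lemma mem_CC : z ∈ CC s b d P q ↔ z ∈ P ∧ D s b q z < 0 ∧ D s q d z < 0 := by
  unfold CC; rw [Finset.mem_filter]
lemma mem_AA : z ∈ AA s b d P q ↔ z ∈ P ∧ 0 < D s b q z ∧ 0 < D s q d z := by
  unfold AA; rw [Finset.mem_filter]

lemma CC_swap : CC s d b P q = AA s b d P q := by
  ext z
  rw [mem_CC, mem_AA, D_swap s q d z, D_swap s b q z]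
  constructor
  · rintro ⟨h1, h2, h3⟩; exact ⟨h1, by linarith, by linarith⟩
  · rintro ⟨h1, h2, h3⟩; exact ⟨h1, by linarith, by linarith⟩
lemma AA_swap : AA s d b P q = CC s b d P q := by
  rw [← CC_swap]
lemma CC_refl : CC (-s) d b P q = CC s b d P q := by
  ext z
  rw [mem_CC, mem_CC, D_neg, D_neg, D_swap s q d z, D_swap s b q z]
  constructor
  · rintro ⟨h1, h2, h3⟩; exact ⟨h1, by linarith, by linarith⟩
  · rintro ⟨h1, h2, h3⟩; exact ⟨h1, by linarith, by linarith⟩
lemma AA_refl : AA (-s) d b P q = AA s b d P q := by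
  ext z
  rw [mem_AA, mem_AA, D_neg, D_neg, D_swap s q d z, D_swap s b q z]
  constructor
  · rintro ⟨h1, h2, h3⟩; exact ⟨h1, by linarith, by linarith⟩
  · rintro ⟨h1, h2, h3⟩; exact ⟨h1, by linarith, by linarith⟩

/-- `q` is comparable to all other points with respect to `b, d` -/
structure Cen (s : ℝ) (b d : ℝ × ℝ) (P : Finset (ℝ × ℝ)) (q : ℝ × ℝ) : Prop where
  hq : q ∈ P
  qb : q ≠ b
  qd : q ≠ d
  all : ∀ z ∈ P, z ≠ q → z ≠ b → z ≠ d → z ∈ AA s b d P q ∨ z ∈ CC s b d P q

lemma Cen.swap (h : Cen s b d P q) : Cen s d b P q :=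
  ⟨h.hq, h.qd, h.qb, fun z hz h1 h2 h3 => by
    rw [CC_swap, AA_swap]; exact (h.all z hz h1 h3 h2).symm⟩

lemma Cen.refl (h : Cen s b d P q) : Cen (-s) d b P q :=
  ⟨h.hq, h.qd, h.qb, fun z hz h1 h2 h3 => by
    rw [CC_refl, AA_refl]; exact h.all z hz h1 h3 h2⟩

lemma Cen.card (h : Cen s b d P q) (hb : b ∈ P) (hd : d ∈ P) (hbd : b ≠ d) :
    (AA s b d P q).card + (CC s b d P q).card + 3 = P.card := by
  classical
  have hdisj : Disjoint (AA s b d P q) (CC s b d P q) := by
    rw [Finset.disjoint_left]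
    intro z h1 h2
    rw [mem_AA] at h1
    rw [mem_CC] at h2
    linarith [h1.2.1, h2.2.1]
  have hU : P = insert q (insert b (insert d (AA s b d P q ∪ CC s b d P q))) := by
    ext z
    simp only [Finset.mem_insert, Finset.mem_union]
    constructor
    · intro hz
      by_cases h1 : z = q
      · exact Or.inl h1
      by_cases h2 : z = b
      · exact Or.inr (Or.inl h2)
      by_cases h3 : z = d
      · exact Or.inr (Or.inr (Or.inl h3))
      · exact Or.inr (Or.inr (Or.inr (h.all z hz h1 h2 h3)))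
    · rintro (rfl | rfl | rfl | h1 | h1)
      · exact h.hq
      · exact hb
      · exact hd
      · exact (mem_AA.1 h1).1
      · exact (mem_CC.1 h1).1
  have hd' : d ∉ AA s b d P q ∪ CC s b d P q := by
    rw [Finset.mem_union, mem_AA, mem_CC]
    rintro (⟨_, _, h3⟩ | ⟨_, _, h3⟩) <;> simp at h3
  have hb' : b ∉ insert d (AA s b d P q ∪ CC s b d P q) := by
    rw [Finset.mem_insert, Finset.mem_union, mem_AA, mem_CC]
    rintro (h1 | ⟨_, h2, _⟩ | ⟨_, h2, _⟩)
    · exact hbd h1
    · simp at h2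
    · simp at h2
  have hq' : q ∉ insert b (insert d (AA s b d P q ∪ CC s b d P q)) := by
    rw [Finset.mem_insert, Finset.mem_insert, Finset.mem_union, mem_AA, mem_CC]
    rintro (h1 | h1 | ⟨_, h2, _⟩ | ⟨_, h2, _⟩)
    · exact h.qb h1
    · exact h.qd h1
    · simp at h2
    · simp at h2
  have hcard : P.card = (insert q (insert b (insert d (AA s b d P q ∪ CC s b d P q)))).card :=
    congrArg Finset.card hU
  rw [Finset.card_insert_of_notMem hq', Finset.card_insert_of_notMem hb',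
    Finset.card_insert_of_notMem hd', Finset.card_union_of_disjoint hdisj] at hcard
  omega

end cones

section sides

variable {s : ℝ} {P : Finset (ℝ × ℝ)} {p q e : ℝ × ℝ}

open Classical in
/-- closed side of a line -/
noncomputable def side (s : ℝ) (P : Finset (ℝ × ℝ)) (p q : ℝ × ℝ) : Finset (ℝ × ℝ) :=
  P.filter (fun z => 0 ≤ D s p q z)

lemma mem_side {z : ℝ × ℝ} : z ∈ side s P p q ↔ z ∈ P ∧ 0 ≤ D s p q z := by
  unfold side; rw [Finset.mem_filter]

lemma side_sub : side s P p q ⊆ P := by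
  intro z hz; exact (mem_side.1 hz).1

lemma side_pos (hg : Gen P) (hs : s ≠ 0) (hp : p ∈ P) (hq : q ∈ P) (hpq : p ≠ q) {z : ℝ × ℝ}
    (hz : z ∈ side s P p q) (h1 : z ≠ p) (h2 : z ≠ q) : 0 < D s p q z := by
  rw [mem_side] at hz
  exact lt_of_le_of_ne hz.2 (hg.D_ne hs hp hq hz.1 hpq h1.symm h2.symm).symm

lemma side_ext (hg : Gen P) (hs : s ≠ 0) (hp : p ∈ P) (hq : q ∈ P) (hpq : p ≠ q) :
    ExtP (side s P p q) p ∧ ExtP (side s P p q) q := by
  have h1 : p ∈ side s P p q := mem_side.2 ⟨hp, by simp⟩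
  have h2 : q ∈ side s P p q := mem_side.2 ⟨hq, by simp⟩
  exact ⟨edge_ext h1 h2 hpq fun z hz a b => side_pos hg hs hp hq hpq hz a b,
    edge_ext' h1 h2 hpq fun z hz a b => side_pos hg hs hp hq hpq hz a b⟩

lemma card_side (hg : Gen P) (hs : s ≠ 0) (hp : p ∈ P) (hq : q ∈ P) (hpq : p ≠ q) :
    (side s P p q).card + (side s P q p).card = P.card + 2 := by
  classical
  have h := card_sides hg hs hp hq hpq
  have h1 : side s P p q = P.filter (fun z => 0 ≤ D s p q z) := by
    ext z; rw [mem_side, Finset.mem_filter]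
  have h2 : side s P q p = P.filter (fun z => D s p q z ≤ 0) := by
    ext z; rw [mem_side, Finset.mem_filter, D_swap s p q z, neg_nonneg]
  rw [h1, h2]; exact h

end sides

section sgn

variable {s : ℝ} {a b c : ℝ × ℝ}

lemma p1 (h : 0 < D s a b c) : 0 < D s b c a := by rw [D_cyc]; exact h
lemma p2 (h : 0 < D s a b c) : 0 < D s c a b := by rw [D_cyc']; exact h
lemma n1 (h : D s a b c < 0) : D s b c a < 0 := by rw [D_cyc]; exact h
lemma n2 (h : D s a b c < 0) : D s c a b < 0 := by rw [D_cyc']; exact h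
lemma ps (h : 0 < D s a b c) : D s b a c < 0 := by rw [D_swap]; linarith
lemma ps' (h : 0 < D s a b c) : D s a c b < 0 := by rw [D_swap']; linarith
lemma ps13 (h : 0 < D s a b c) : D s c b a < 0 := by rw [D_swap13]; linarith
lemma ns (h : D s a b c < 0) : 0 < D s b a c := by rw [D_swap]; linarith
lemma ns' (h : D s a b c < 0) : 0 < D s a c b := by rw [D_swap']; linarith
lemma ns13 (h : D s a b c < 0) : 0 < D s c b a := by rw [D_swap13]; linarith

end sgn

section R

variable {s : ℝ} {m : ℕ} {P : Finset (ℝ × ℝ)} {a b c d q : ℝ × ℝ}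

lemma Conf.a_mem (h : Conf s P a b c d) (hq : Cen s b d P q) (hqa : q ≠ a) :
    a ∈ AA s b d P q := by
  rw [mem_AA]
  exact ⟨h.ha, p1 (h.eab q hq.hq hqa hq.qb), p2 (h.eda q hq.hq hq.qd hqa)⟩

lemma Conf.c_mem (h : Conf s P a b c d) (hq : Cen s b d P q) (hqc : q ≠ c) :
    c ∈ CC s b d P q := by
  rw [mem_CC]
  exact ⟨h.hc, ps' (h.ebc q hq.hq hq.qb hqc), ps13 (h.ecd q hq.hq hqc hq.qd)⟩

lemma card3 {T U : Finset (ℝ × ℝ)} {x y z : ℝ × ℝ} (hxy : x ≠ y) (hxz : x ≠ z) (hyz : y ≠ z)
    (hx : x ∉ T) (hy : y ∉ T) (hz : z ∉ T) (hT : T ⊆ U) (hxU : x ∈ U) (hyU : y ∈ U)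
    (hzU : z ∈ U) : T.card + 3 ≤ U.card := by
  classical
  have h1 : insert x (insert y (insert z T)) ⊆ U := by
    intro w hw
    simp only [Finset.mem_insert] at hw
    rcases hw with rfl | rfl | rfl | hw
    · exact hxU
    · exact hyU
    · exact hzU
    · exact hT hw
  have h2 := Finset.card_le_card h1
  rw [Finset.card_insert_of_notMem, Finset.card_insert_of_notMem,
    Finset.card_insert_of_notMem hz] at h2
  · omega
  · simp [hyz, hy]
  · simp [hxy, hxz, hx]

/-- Lemma R1 for `q` on the `c`-side of `b d` -/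
lemma R1c (h : Conf s P a b c d) (ht : Thin m P) (hP : P.card = 2 * m + 1)
    (hq : Cen s b d P q) (hqa : q ≠ a) (hqc : q ≠ c) (hside : D s b d q < 0)
    (hi1 : m ≤ (CC s b d P q).card + 2) (hi2 : (CC s b d P q).card ≤ m) :
    (∀ z ∈ AA s b d P q, z ≠ a → 0 < D s a q z) ∨
    (∀ z ∈ CC s b d P q, z ≠ c → 0 < D s c q z) := by
  classical
  have hs := h.hs
  have hg := h.gen
  have hA := h.a_mem hq hqa
  have hC := h.c_mem hq hqc
  have hcard := hq.card h.hb h.hd h.bd
  have hqP := hq.hq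
  -- rotate about `q` from `q b`
  have hmemZ : ∀ z, z ∈ (P.erase q).erase b ↔ z ≠ b ∧ z ≠ q ∧ z ∈ P := by
    intro z; simp only [Finset.mem_erase]
  have hZne : ((P.erase q).erase b).Nonempty := ⟨a, (hmemZ a).2 ⟨h.ab, hqa.symm, h.ha⟩⟩
  obtain ⟨e, he, hmax⟩ := first_hit' (s := s) (q := q) (b := b) hZne
    (fun z hz => by
      rw [hmemZ] at hz
      exact hg.D_ne hs hqP h.hb hz.2.2 hq.qb hz.2.1.symm hz.1.symm)
    (fun z hz w hw hzw => by
      rw [hmemZ] at hz hw
      exact hg.D_ne hs hqP hz.2.2 hw.2.2 hz.2.1.symm hw.2.1.symm hzw)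
  rw [hmemZ] at he
  obtain ⟨heb, heq, heP⟩ := he
  have hfd : D s q b d < 0 := n2 hside
  have hfA : ∀ z ∈ AA s b d P q, D s q b z < 0 := fun z hz => ps (mem_AA.1 hz).2.1
  have hfC : ∀ z ∈ CC s b d P q, 0 < D s q b z := fun z hz => ns (mem_CC.1 hz).2.1
  have hneA : ∀ z ∈ AA s b d P q, z ≠ q ∧ z ≠ b ∧ z ≠ d := by
    intro z hz
    rw [mem_AA] at hz
    refine ⟨?_, ?_, ?_⟩
    · rintro rfl; simp at hz
    · rintro rfl; simp at hz
    · rintro rfl; simp at hz
  have hneC : ∀ z ∈ CC s b d P q, z ≠ q ∧ z ≠ b ∧ z ≠ d := by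
    intro z hz
    rw [mem_CC] at hz
    refine ⟨?_, ?_, ?_⟩
    · rintro rfl; simp at hz
    · rintro rfl; simp at hz
    · rintro rfl; simp at hz
  by_cases hed : e = d
  · -- impossible: `a` would be hit first
    exfalso
    subst hed
    have h1 := hmax a ((hmemZ a).2 ⟨h.ab, hqa.symm, h.ha⟩) h.da.symm
    have h2 : 0 < D s q e a := (mem_AA.1 hA).2.2
    have h3 : 0 < D s q b e * D s q b a := mul_pos_of_neg_of_neg hfd (hfA a hA)
    linarith [mul_pos h2 h3]
  rcases hq.all e heP heq heb hed with heA | heC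
  · -- first hit in the `a`-cone
    have hfe := hfA e heA
    have hposC : ∀ z ∈ CC s b d P q, 0 < D s q e z := by
      intro z hz
      have hzn := hneC z hz
      have hze : z ≠ e := by
        rintro rfl
        linarith [hfC z hz]
      have h1 := hmax z ((hmemZ z).2 ⟨hzn.2.1, hzn.1, (mem_CC.1 hz).1⟩) hze
      have h3 : D s q b e * D s q b z < 0 := mul_neg_of_neg_of_pos hfe (hfC z hz)
      by_contra hcon
      have := mul_nonneg_of_nonpos_of_nonpos (not_lt.1 hcon) h3.le
      linarith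
    have hnegA : ∀ z ∈ AA s b d P q, z ≠ e → D s q e z < 0 := by
      intro z hz hze
      have hzn := hneA z hz
      have h1 := hmax z ((hmemZ z).2 ⟨hzn.2.1, hzn.1, (mem_AA.1 hz).1⟩) hze
      have h3 : 0 < D s q b e * D s q b z := mul_pos_of_neg_of_neg hfe (hfA z hz)
      by_contra hcon
      have := mul_nonneg (not_lt.1 hcon) h3.le
      linarith
    by_cases hea : e = a
    · left
      subst hea
      intro z hz hza
      exact ns (hnegA z hz hza)
    · right
      intro z hz hzc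
      by_contra hcon
      have hzn := hneC z hz
      have hzneg : D s c q z < 0 :=
        lt_of_le_of_ne (not_lt.1 hcon) (hg.D_ne hs h.hc hqP (mem_CC.1 hz).1 hqc.symm hzc.symm
          hzn.1.symm)
      -- the closed side `S` of `q e` containing `b`
      have hbS : b ∈ side s P q e := mem_side.2 ⟨h.hb, by
        have : 0 < D s q e b := ns' hfe
        exact this.le⟩
      have hCS : CC s b d P q ⊆ side s P q e := fun w hw =>
        mem_side.2 ⟨(mem_CC.1 hw).1, (hposC w hw).le⟩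
      have hqS : q ∈ side s P q e := mem_side.2 ⟨hqP, by simp⟩
      have heS : e ∈ side s P q e := mem_side.2 ⟨heP, by simp⟩
      have hcardS : m + 1 ≤ (side s P q e).card := by
        have := card3 (T := CC s b d P q) (U := side s P q e) (x := q) (y := e) (z := b)
          heq.symm hq.qb heb (fun hh => (hneC q hh).1 rfl)
          (fun hh => by linarith [hfC e hh]) (fun hh => (hneC b hh).2.1 rfl) hCS hqS heS hbS
        omega
      obtain ⟨e', he', hneg'⟩ := exists_ext_neg (s := s) (u := c) (v := q) (hCS hz) hzneg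
      have hext := side_ext hg hs hqP heP heq.symm
      have h_ce : 0 < D s c q e := p2 (hposC c hC)
      have h_cb : 0 < D s c q b := p1 (h.ebc q hqP hq.qb hqc)
      refine ht.five side_sub hcardS hext.1 hext.2 (h.extb.mono hbS side_sub)
        (h.extc.mono (hCS hC) side_sub) he' ?_
      have hec : e ≠ c := by
        rintro rfl
        linarith [hfC e hC]
      have k1 : q ≠ e' := by rintro rfl; simp at hneg'
      have k2 : e ≠ e' := by rintro rfl; linarith
      have k3 : b ≠ e' := by rintro rfl; linarith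
      have k4 : c ≠ e' := by rintro rfl; simp at hneg'
      simp [heq.symm, hq.qb, hqc, heb, hec, h.bc, k1, k2, k3, k4]
  · -- first hit in the `c`-cone
    have hfe := hfC e heC
    have hposA : ∀ z ∈ AA s b d P q, 0 < D s q e z := by
      intro z hz
      have hzn := hneA z hz
      have hze : z ≠ e := by
        rintro rfl
        linarith [hfA z hz]
      have h1 := hmax z ((hmemZ z).2 ⟨hzn.2.1, hzn.1, (mem_AA.1 hz).1⟩) hze
      have h3 : D s q b e * D s q b z < 0 := mul_neg_of_pos_of_neg hfe (hfA z hz)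
      by_contra hcon
      have := mul_nonneg_of_nonpos_of_nonpos (not_lt.1 hcon) h3.le
      linarith
    have hposd : 0 < D s q e d := by
      have h1 := hmax d ((hmemZ d).2 ⟨h.bd.symm, hq.qd.symm, h.hd⟩) (Ne.symm hed)
      have h3 : D s q b e * D s q b d < 0 := mul_neg_of_pos_of_neg hfe hfd
      by_contra hcon
      have := mul_nonneg_of_nonpos_of_nonpos (not_lt.1 hcon) h3.le
      linarith
    left
    intro z hz hza
    by_contra hcon
    have hzn := hneA z hz
    have hzneg : D s a q z < 0 :=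
      lt_of_le_of_ne (not_lt.1 hcon) (hg.D_ne hs h.ha hqP (mem_AA.1 hz).1 hqa.symm hza.symm
        hzn.1.symm)
    have hdS : d ∈ side s P q e := mem_side.2 ⟨h.hd, hposd.le⟩
    have hAS : AA s b d P q ⊆ side s P q e := fun w hw =>
      mem_side.2 ⟨(mem_AA.1 hw).1, (hposA w hw).le⟩
    have hqS : q ∈ side s P q e := mem_side.2 ⟨hqP, by simp⟩
    have heS : e ∈ side s P q e := mem_side.2 ⟨heP, by simp⟩
    have hcardS : m + 1 ≤ (side s P q e).card := by
      have := card3 (T := AA s b d P q) (U := side s P q e) (x := q) (y := e) (z := d)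
        heq.symm hq.qd hed (fun hh => (hneA q hh).1 rfl)
        (fun hh => by linarith [hfA e hh]) (fun hh => (hneA d hh).2.2 rfl) hAS hqS heS hdS
      omega
    obtain ⟨e', he', hneg'⟩ := exists_ext_neg (s := s) (u := a) (v := q) (hAS hz) hzneg
    have hext := side_ext hg hs hqP heP heq.symm
    have h_ae : 0 < D s a q e := p2 (hposA a hA)
    have h_ad : 0 < D s a q d := p1 (h.eda q hqP hq.qd hqa)
    refine ht.five side_sub hcardS hext.1 hext.2 (h.extd.mono hdS side_sub)
      (h.exta.mono (hAS hA) side_sub) he' ?_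
    have hea : e ≠ a := by
      rintro rfl
      linarith [hfA e hA]
    have k1 : q ≠ e' := by rintro rfl; simp at hneg'
    have k2 : e ≠ e' := by rintro rfl; linarith
    have k3 : d ≠ e' := by rintro rfl; linarith
    have k4 : a ≠ e' := by rintro rfl; simp at hneg'
    simp [heq.symm, hq.qd, hqa, hed, hea, h.da, k1, k2, k3, k4]

/-- points near the middle are not `a` or `c` -/
lemma Conf.ne_c (h : Conf s P a b c d) (hq : Cen s b d P q) (hC : 0 < (CC s b d P q).card) :
    q ≠ c := by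
  rintro rfl
  obtain ⟨z, hz⟩ := Finset.card_pos.1 hC
  rw [mem_CC] at hz
  have hzb : z ≠ b := by rintro rfl; simp at hz
  have hzq : z ≠ q := by rintro rfl; simp at hz
  linarith [h.ebc z hz.1 hzb hzq]

lemma Conf.ne_a (h : Conf s P a b c d) (hq : Cen s b d P q) (hA : 0 < (AA s b d P q).card) :
    q ≠ a := by
  apply h.rot.rot.ne_c hq.swap
  rw [CC_swap]; exact hA

/-- Lemma R1 -/
lemma R1 (h : Conf s P a b c d) (ht : Thin m P) (hP : P.card = 2 * m + 1) (hm : 4 ≤ m)
    (hq : Cen s b d P q)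
    (hi1 : m ≤ (CC s b d P q).card + 2) (hi2 : (CC s b d P q).card ≤ m) :
    (∀ z ∈ AA s b d P q, z ≠ a → 0 < D s a q z) ∨
    (∀ z ∈ CC s b d P q, z ≠ c → 0 < D s c q z) := by
  have hcard := hq.card h.hb h.hd h.bd
  have hqc := h.ne_c hq (by omega)
  have hqa := h.ne_a hq (by omega)
  have hne := h.gen.D_ne h.hs h.hb h.hd hq.hq h.bd hq.qb.symm hq.qd.symm
  rcases hne.lt_or_gt with h1 | h1
  · exact R1c h ht hP hq hqa hqc h1 hi1 hi2
  · have h2 := R1c h.rot.rot ht hP hq.swap hqc hqa (ps h1) (by rw [CC_swap]; omega)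
      (by rw [CC_swap]; omega)
    rw [CC_swap, AA_swap] at h2
    exact h2.symm

/-- Lemma R2 -/
lemma R2 (h : Conf s P a b c d) (ht : Thin m P) (hP : P.card = 2 * m + 1) (hm : 4 ≤ m)
    (hq : Cen s b d P q)
    (hi1 : m ≤ (CC s b d P q).card + 2) (hi2 : (CC s b d P q).card ≤ m) :
    (∀ z ∈ AA s b d P q, z ≠ a → D s a q z < 0) ∨
    (∀ z ∈ CC s b d P q, z ≠ c → D s c q z < 0) := by
  have h2 := R1 h.refl ht hP hm hq.refl (by rw [CC_refl]; omega) (by rw [CC_refl]; omega)
  rw [CC_refl, AA_refl] at h2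
  simp only [D_neg] at h2
  rcases h2 with h2 | h2
  · left; intro z hz hza; linarith [h2 z hz hza]
  · right; intro z hz hza; linarith [h2 z hz hza]

/-- `d`-extreme points -/
def Td (s : ℝ) (P : Finset (ℝ × ℝ)) (a b c d q : ℝ × ℝ) : Prop :=
  (∀ z ∈ AA s b d P q, z ≠ a → D s a q z < 0) ∧ (∀ z ∈ CC s b d P q, z ≠ c → 0 < D s c q z)

lemma types (h : Conf s P a b c d) (ht : Thin m P) (hP : P.card = 2 * m + 1) (hm : 4 ≤ m)
    (hq : Cen s b d P q)
    (hi1 : m ≤ (CC s b d P q).card + 2) (hi2 : (CC s b d P q).card ≤ m) :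
    Td s P a b c d q ∨ Td (-s) P a d c b q := by
  have hcard := hq.card h.hb h.hd h.bd
  have hqc := h.ne_c hq (by omega)
  have hqa := h.ne_a hq (by omega)
  have hA : ∃ z ∈ AA s b d P q, z ≠ a := by
    have : 1 < (AA s b d P q).card := by omega
    obtain ⟨x, hx, y, hy, hxy⟩ := Finset.one_lt_card.1 this
    by_cases hxa : x = a
    · exact ⟨y, hy, fun hya => hxy (by rw [hxa, hya])⟩
    · exact ⟨x, hx, hxa⟩
  have hC : ∃ z ∈ CC s b d P q, z ≠ c := by
    have : 1 < (CC s b d P q).card := by omega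
    obtain ⟨x, hx, y, hy, hxy⟩ := Finset.one_lt_card.1 this
    by_cases hxa : x = c
    · exact ⟨y, hy, fun hya => hxy (by rw [hxa, hya])⟩
    · exact ⟨x, hx, hxa⟩
  obtain ⟨zA, hzA, hzA'⟩ := hA
  obtain ⟨zC, hzC, hzC'⟩ := hC
  unfold Td
  rw [AA_refl, CC_refl]
  simp only [D_neg]
  rcases R1 h ht hP hm hq hi1 hi2 with h1 | h1
  · rcases R2 h ht hP hm hq hi1 hi2 with h2 | h2
    · linarith [h1 zA hzA hzA', h2 zA hzA hzA']
    · right
      exact ⟨fun z hz hza => by linarith [h1 z hz hza], fun z hz hzc => by linarith [h2 z hz hzc]⟩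
  · rcases R2 h ht hP hm hq hi1 hi2 with h2 | h2
    · left; exact ⟨h2, h1⟩
    · linarith [h1 zC hzC hzC', h2 zC hzC hzC']

lemma CC_symm {q' : ℝ × ℝ} (hq : q ∈ P) (h : q' ∈ CC s b d P q) : q ∈ AA s b d P q' := by
  rw [mem_CC] at h
  rw [mem_AA]
  exact ⟨hq, ns' h.2.1, ns13 h.2.2⟩

lemma AA_symm {q' : ℝ × ℝ} (hq : q ∈ P) (h : q' ∈ AA s b d P q) : q ∈ CC s b d P q' := by
  rw [mem_AA] at h
  rw [mem_CC]
  exact ⟨hq, ps' h.2.1, ps13 h.2.2⟩

lemma Conf.nonneg_ab (h : Conf s P a b c d) {z : ℝ × ℝ} (hz : z ∈ P) : 0 ≤ D s a b z := by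
  by_cases h1 : z = a
  · subst h1; simp
  by_cases h2 : z = b
  · subst h2; simp
  exact (h.eab z hz h1 h2).le

lemma Conf.CC_trans (h : Conf s P a b c d) {q' : ℝ × ℝ} (hq : Cen s b d P q)
    (hq' : Cen s b d P q') (hqa : q ≠ a) (hqa' : q' ≠ a) (hqc : q ≠ c) (hqc' : q' ≠ c)
    (hmem : q' ∈ CC s b d P q) : CC s b d P q' ⊆ CC s b d P q := by
  intro z hz
  rw [mem_CC] at hz hmem ⊢
  refine ⟨hz.1, ?_, ?_⟩
  · have := trans_pos' (s := s) (a := a) (b := b) (x := z) (y := q') (z := q)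
      (h.nonneg_ab hz.1) (h.eab q' hq'.hq hqa' hq'.qb) (h.eab q hq.hq hqa hq.qb)
      (ns' hz.2.1) (ns' hmem.2.1)
    exact ps' this
  · have := trans_pos (s := s) (a := c) (b := d) (x := q) (y := q') (z := z)
      (h.ecd q hq.hq hqc hq.qd) (h.ecd q' hq'.hq hqc' hq'.qd) (h.rot.rot.nonneg_ab hz.1)
      (ns hmem.2.2) (ns hz.2.2)
    exact ps this

/-- two `d`-extreme central points are impossible -/
lemma fin_false (h : Conf s P a b c d) (ht : Thin m P) (hP : P.card = 2 * m + 1) (hm : 4 ≤ m)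
    {q' : ℝ × ℝ} (hq : Cen s b d P q) (hq' : Cen s b d P q')
    (hi : (CC s b d P q).card ≤ m) (hj : m ≤ (CC s b d P q').card + 2)
    (hlt : (CC s b d P q').card < (CC s b d P q).card)
    (hT : Td s P a b c d q) (hT' : Td s P a b c d q') : False := by
  classical
  have hs := h.hs
  have hg := h.gen
  have hcard := hq.card h.hb h.hd h.bd
  have hcard' := hq'.card h.hb h.hd h.bd
  have hqc := h.ne_c hq (by omega)
  have hqa := h.ne_a hq (by omega)
  have hqc' := h.ne_c hq' (by omega)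
  have hqa' := h.ne_a hq' (by omega)
  have hqq : q ≠ q' := by rintro rfl; omega
  have hmem : q' ∈ CC s b d P q := by
    rcases hq.all q' hq'.hq hqq.symm hq'.qb hq'.qd with h1 | h1
    · have h2 := AA_symm hq.hq h1
      have h3 := Finset.card_le_card (h.CC_trans hq' hq hqa' hqa hqc' hqc h2)
      omega
    · exact h1
  have hmem' := CC_symm hq.hq hmem
  have hsub := h.CC_trans hq hq' hqa hqa' hqc hqc' hmem
  have hC := h.c_mem hq hqc
  have m1 := (mem_CC.1 hmem).2.1
  have m2 := (mem_CC.1 hmem).2.2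
  -- position with respect to the line `q q'`
  have hcL : 0 < D s q q' c := p1 (hT.2 q' hmem hqc')
  have haL : 0 < D s q q' a := ns13 (hT'.1 q hmem' hqa)
  have hdL : 0 < D s q q' d := ns' m2
  have hbR : 0 < D s q' q b := ns (n1 m1)
  have hqqP := hq.hq
  have hL : (side s P q q').card ≤ m := by
    by_contra hcon
    have hext := side_ext hg hs hq.hq hq'.hq hqq
    refine ht.five side_sub (by omega : m + 1 ≤ (side s P q q').card) hext.1 hext.2
      (h.exta.mono (mem_side.2 ⟨h.ha, haL.le⟩) side_sub)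
      (h.extc.mono (mem_side.2 ⟨h.hc, hcL.le⟩) side_sub)
      (h.extd.mono (mem_side.2 ⟨h.hd, hdL.le⟩) side_sub) ?_
    simp [hqq, hqa, hqc, hq.qd, hqa', hqc', hq'.qd, h.ac, h.da.symm, h.cd]
  have hLR := card_side hg hs hq.hq hq'.hq hqq
  have hR : m + 3 ≤ (side s P q' q).card := by omega
  have hbS : b ∈ side s P q' q := mem_side.2 ⟨h.hb, hbR.le⟩
  by_cases hc1 : ∃ z ∈ side s P q' q, z ∈ AA s b d P q
  · by_cases hc2 : ∃ z ∈ side s P q' q, z ∈ CC s b d P q'
    · obtain ⟨z1, hz1, hz1'⟩ := hc1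
      obtain ⟨z2, hz2, hz2'⟩ := hc2
      obtain ⟨e1, he1, hpos⟩ := exists_ext_pos hz1 (mem_AA.1 hz1').2.1
      obtain ⟨e2, he2, hneg⟩ := exists_ext_neg hz2 (mem_CC.1 hz2').2.1
      have hext := side_ext hg hs hq'.hq hq.hq hqq.symm
      have hpq' : 0 < D s b q' q := ns' m1
      have k1 : e1 ≠ e2 := by
        rintro rfl
        have heP := (mem_side.1 he1.mem).1
        have hed : e1 ≠ d := by
          rintro rfl
          have := (mem_side.1 he1.mem).2
          linarith [ps hdL]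
        have heq' : e1 ≠ q' := by rintro rfl; simp at hneg
        have heb : e1 ≠ b := by rintro rfl; simp at hneg
        rcases hq'.all e1 heP heq' heb hed with h1 | h1
        · linarith [(mem_AA.1 h1).2.1]
        · linarith [(mem_CC.1 (hsub h1)).2.1]
      have k2 : q ≠ e1 := by rintro rfl; simp at hpos
      have k3 : q' ≠ e1 := by rintro rfl; linarith
      have k4 : b ≠ e1 := by rintro rfl; simp at hpos
      have k5 : q ≠ e2 := by rintro rfl; linarith
      have k6 : q' ≠ e2 := by rintro rfl; simp at hneg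
      have k7 : b ≠ e2 := by rintro rfl; simp at hneg
      refine ht.five side_sub (by omega : m + 1 ≤ (side s P q' q).card) hext.1 hext.2
        (h.extb.mono hbS side_sub) he1 he2 ?_
      simp [hqq.symm, hq.qb, hq'.qb, k1, k2, k3, k4, k5, k6, k7]
    · -- no point of `R` in the `c`-cone of `q'`
      push Not at hc2
      have hCL : CC s b d P q' ⊆ side s P q q' := by
        intro z hz
        have hzP := (mem_CC.1 hz).1
        refine mem_side.2 ⟨hzP, ?_⟩
        by_contra hcon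
        apply hc2 z (mem_side.2 ⟨hzP, ?_⟩) hz
        have := ns (not_le.1 hcon)
        exact this.le
      have h5 := card3 (T := CC s b d P q') (U := side s P q q') (x := q) (y := q') (z := d)
        hqq hq.qd hq'.qd
        (fun hh => by linarith [(mem_CC.1 hh).2.1, ns' m1])
        (fun hh => by simpa using (mem_CC.1 hh).2.1)
        (fun hh => by simpa using (mem_CC.1 hh).2.2) hCL
        (mem_side.2 ⟨hq.hq, by simp⟩) (mem_side.2 ⟨hq'.hq, by simp⟩)
        (mem_side.2 ⟨h.hd, hdL.le⟩)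
      omega
  · -- no point of `R` in the `a`-cone of `q`
    push Not at hc1
    have hRsub : side s P q' q ⊆ insert q (insert b ((CC s b d P q).erase c)) := by
      intro z hz
      have hzP := (mem_side.1 hz).1
      simp only [Finset.mem_insert, Finset.mem_erase]
      by_cases h1 : z = q
      · exact Or.inl h1
      by_cases h2 : z = b
      · exact Or.inr (Or.inl h2)
      have h3 : z ≠ d := by
        rintro rfl
        linarith [(mem_side.1 hz).2, ps hdL]
      have h4 : z ≠ c := by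
        rintro rfl
        linarith [(mem_side.1 hz).2, ps hcL]
      rcases hq.all z hzP h1 h2 h3 with h5 | h5
      · exact absurd h5 (hc1 z hz)
      · exact Or.inr (Or.inr ⟨h4, h5⟩)
    have h6 := Finset.card_le_card hRsub
    have h7 := Finset.card_insert_le q (insert b ((CC s b d P q).erase c))
    have h8 := Finset.card_insert_le b ((CC s b d P q).erase c)
    rw [Finset.card_erase_of_mem hC] at h8
    omega

end R

section nest

variable {s : ℝ} {m : ℕ} {P : Finset (ℝ × ℝ)} {a b c d : ℝ × ℝ}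

lemma nest_step (h : Conf s P a b c d) (ht : Thin m P) {S : Finset (ℝ × ℝ)} (hS : S ⊆ P)
    (hcard : m + 1 ≤ S.card) (ha : a ∈ S) (hb : b ∈ S) (hd : d ∈ S) {p : ℝ × ℝ} (hp : p ∈ S)
    (hpn : D s b d p < 0) :
    ∃ q ∈ S, D s b d q < 0 ∧ (∀ w ∈ S, w ≠ b → w ≠ q → 0 < D s b q w) ∧
      (∀ w ∈ S, w ≠ d → w ≠ q → 0 < D s q d w) := by
  classical
  have hs := h.hs
  have hg := h.gen.mono hS
  have hpb : p ≠ b := by rintro rfl; simp at hpn
  have hpd : p ≠ d := by rintro rfl; simp at hpn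
  obtain ⟨z1, hz1, hz1b, hn1⟩ := next_vertex (s := s) hg hs hb ha h.ab.symm
    (fun w hw h1 h2 => h.eab w (hS hw) h2 h1)
  obtain ⟨z2, hz2, hz2d, hn2⟩ := next_vertex (s := -s) hg (neg_ne_zero.2 hs) hd ha h.da
    (fun w hw h1 h2 => by
      have := h.eda w (hS hw) h1 h2
      rw [D_neg]; linarith [ps this])
  have hn2' : ∀ w ∈ S, w ≠ d → w ≠ z2 → 0 < D s z2 d w := by
    intro w hw h1 h2
    have := hn2 w hw h1 h2
    rw [D_neg] at this
    exact ns (by linarith)
  have hz1d : z1 ≠ d := by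
    rintro rfl
    linarith [hn1 p hp hpb hpd]
  have hz2b : z2 ≠ b := by
    rintro rfl
    linarith [hn2' p hp hpd hpb]
  have hz1a : z1 ≠ a := by
    rintro rfl
    have h1 := hn1 d hd h.bd.symm h.da
    have h2 := h.eab d h.hd h.da h.bd.symm
    linarith [ps h2]
  have hz2a : z2 ≠ a := by
    rintro rfl
    have h1 := hn2' b hb h.bd h.ab.symm
    have h2 := h.eda b h.hb h.bd h.ab.symm
    linarith [ps h2]
  have he1 : ExtP S z1 := edge_ext' hb hz1 hz1b.symm (fun w hw h1 h2 => hn1 w hw h1 h2)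
  have he2 : ExtP S z2 := edge_ext hz2 hd hz2d (fun w hw h1 h2 => hn2' w hw h2 h1)
  have heq : z1 = z2 := by
    by_contra hne
    refine ht.five hS hcard (h.exta.mono ha hS) (h.extb.mono hb hS) (h.extd.mono hd hS) he1
      he2 ?_
    simp [h.ab, h.da.symm, hz1a.symm, hz2a.symm, h.bd, hz1b.symm, hz2b.symm, hz1d.symm,
      hz2d.symm, hne]
  refine ⟨z1, hz1, ?_, hn1, ?_⟩
  · have := hn1 d hd h.bd.symm hz1d.symm
    exact ps' this
  · rw [heq]; exact hn2'

open Classical in
/-- the points on the `c`-side of `b d` -/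
noncomputable def Hc (s : ℝ) (b d : ℝ × ℝ) (P : Finset (ℝ × ℝ)) : Finset (ℝ × ℝ) :=
  P.filter (fun z => D s b d z < 0)

lemma mem_Hc {z : ℝ × ℝ} : z ∈ Hc s b d P ↔ z ∈ P ∧ D s b d z < 0 := by
  unfold Hc; rw [Finset.mem_filter]

lemma card_Hc (h : Conf s P a b c d) : (Hc s b d P).card + (Hc s d b P).card + 2 = P.card := by
  classical
  have hdisj : Disjoint (Hc s b d P) (Hc s d b P) := by
    rw [Finset.disjoint_left]
    intro z h1 h2
    rw [mem_Hc] at h1 h2
    linarith [ns h1.2, h2.2]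
  have hU : P = insert b (insert d (Hc s b d P ∪ Hc s d b P)) := by
    ext z
    simp only [Finset.mem_insert, Finset.mem_union, mem_Hc]
    constructor
    · intro hz
      by_cases h2 : z = b
      · exact Or.inl h2
      by_cases h3 : z = d
      · exact Or.inr (Or.inl h3)
      · right; right
        rcases (h.gen.D_ne h.hs h.hb h.hd hz h.bd (Ne.symm h2) (Ne.symm h3)).lt_or_gt with h4 | h4
        · exact Or.inl ⟨hz, h4⟩
        · exact Or.inr ⟨hz, ps h4⟩
    · rintro (rfl | rfl | h1 | h1)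
      · exact h.hb
      · exact h.hd
      · exact h1.1
      · exact h1.1
  have hd' : d ∉ Hc s b d P ∪ Hc s d b P := by
    rw [Finset.mem_union, mem_Hc, mem_Hc]
    rintro (⟨_, h3⟩ | ⟨_, h3⟩) <;> simp at h3
  have hb' : b ∉ insert d (Hc s b d P ∪ Hc s d b P) := by
    rw [Finset.mem_insert, Finset.mem_union, mem_Hc, mem_Hc]
    rintro (h1 | ⟨_, h2⟩ | ⟨_, h2⟩)
    · exact h.bd h1
    · simp at h2
    · simp at h2
  have hcard : P.card = (insert b (insert d (Hc s b d P ∪ Hc s d b P))).card :=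
    congrArg Finset.card hU
  rw [Finset.card_insert_of_notMem hb',
    Finset.card_insert_of_notMem hd', Finset.card_union_of_disjoint hdisj] at hcard
  omega

open Classical in
lemma nest (h : Conf s P a b c d) (ht : Thin m P) (hP : P.card = 2 * m + 1) :
    ∀ j, j ≤ m → j + 1 ≤ (Hc s b d P).card →
    ∃ C ⊆ Hc s b d P, C.card = j ∧ ∃ q ∈ P, q ∉ C ∧ D s b d q < 0 ∧
      (∀ z ∈ P, z ∉ C → z ≠ b → z ≠ q → 0 < D s b q z) ∧
      (∀ z ∈ P, z ∉ C → z ≠ d → z ≠ q → 0 < D s q d z) ∧
      (∀ z ∈ C, D s b q z < 0 ∧ D s q d z < 0) := by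
  intro j
  induction j with
  | zero =>
    intro _ h1
    obtain ⟨p, hp⟩ := Finset.card_pos.1 (by omega : 0 < (Hc s b d P).card)
    rw [mem_Hc] at hp
    obtain ⟨q, hq, hq1, hq2, hq3⟩ := nest_step h ht (Finset.Subset.refl P) (by omega) h.ha h.hb
      h.hd hp.1 hp.2
    exact ⟨∅, Finset.empty_subset _, rfl, q, hq, by simp, hq1,
      fun z hz _ h2 h3 => hq2 z hz h2 h3, fun z hz _ h2 h3 => hq3 z hz h2 h3, by simp⟩
  | succ j ih =>
    intro hj hcard
    obtain ⟨C, hC, hCc, q, hqP, hqC, hq1, hq2, hq3, hq4⟩ := ih (by omega) (by omega)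
    have hC'sub : insert q C ⊆ Hc s b d P := by
      intro z hz
      rw [Finset.mem_insert] at hz
      rcases hz with rfl | hz
      · exact mem_Hc.2 ⟨hqP, hq1⟩
      · exact hC hz
    have hC'card : (insert q C).card = j + 1 := by
      rw [Finset.card_insert_of_notMem hqC, hCc]
    have hC'P : insert q C ⊆ P := fun z hz => (mem_Hc.1 (hC'sub hz)).1
    have hScard : (P \ insert q C).card = P.card - (j + 1) := by
      rw [Finset.card_sdiff_of_subset hC'P, hC'card]
    have hnot : ∀ z, 0 ≤ D s b d z → z ∉ insert q C := by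
      intro z hz hz'
      linarith [(mem_Hc.1 (hC'sub hz')).2]
    have hmemS : ∀ z, z ∈ P \ insert q C ↔ z ∈ P ∧ z ∉ insert q C := by
      intro z; rw [Finset.mem_sdiff]
    have hbda : 0 < D s b d a := p2 (h.eda b h.hb h.bd h.ab.symm)
    have haS : a ∈ P \ insert q C := (hmemS a).2 ⟨h.ha, hnot a hbda.le⟩
    have hbS : b ∈ P \ insert q C := (hmemS b).2 ⟨h.hb, hnot b (by simp)⟩
    have hdS : d ∈ P \ insert q C := (hmemS d).2 ⟨h.hd, hnot d (by simp)⟩
    have hex : ∃ p ∈ Hc s b d P, p ∉ insert q C := by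
      by_contra hcon
      push Not at hcon
      have := Finset.card_le_card (fun z hz => hcon z hz : Hc s b d P ⊆ insert q C)
      omega
    obtain ⟨p, hp, hpC⟩ := hex
    rw [mem_Hc] at hp
    obtain ⟨q', hq'S, hn1, hn2, hn3⟩ := nest_step h ht (S := P \ insert q C)
      Finset.sdiff_subset (by omega) haS hbS hdS ((hmemS p).2 ⟨hp.1, hpC⟩) hp.2
    rw [hmemS] at hq'S
    have hq'q : q' ≠ q := by
      rintro rfl
      exact hq'S.2 (Finset.mem_insert_self _ _)
    have hq'C : q' ∉ C := fun hh => hq'S.2 (Finset.mem_insert_of_mem hh)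
    have hq'b : q' ≠ b := by rintro rfl; simp at hn1
    have hq'd : q' ≠ d := by rintro rfl; simp at hn1
    have hq'a : q' ≠ a := by rintro rfl; linarith
    have hqb : q ≠ b := by rintro rfl; simp at hq1
    have hqd : q ≠ d := by rintro rfl; simp at hq1
    have hqa : q ≠ a := by rintro rfl; linarith
    have r1 : 0 < D s b q q' := hq2 q' hq'S.1 hq'C hq'b hq'q
    have r2 : 0 < D s q d q' := hq3 q' hq'S.1 hq'C hq'd hq'q
    refine ⟨insert q C, hC'sub, hC'card, q', hq'S.1, hq'S.2, hn1, ?_, ?_, ?_⟩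
    · intro z hz hzC hzb hzq
      exact hn2 z ((hmemS z).2 ⟨hz, hzC⟩) hzb hzq
    · intro z hz hzC hzd hzq
      exact hn3 z ((hmemS z).2 ⟨hz, hzC⟩) hzd hzq
    · intro z hz
      rw [Finset.mem_insert] at hz
      rcases hz with rfl | hz
      · exact ⟨ps' r1, ps13 r2⟩
      · have hzP := (mem_Hc.1 (hC hz)).1
        have hzb : z ≠ b := by
          rintro rfl
          have := (mem_Hc.1 (hC hz)).2
          simp at this
        have hza : z ≠ a := by
          rintro rfl
          have := (mem_Hc.1 (hC hz)).2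
          linarith
        have hzd : z ≠ d := by
          rintro rfl
          have := (mem_Hc.1 (hC hz)).2
          simp at this
        have t := hq4 z hz
        constructor
        · have := trans_pos (s := s) (a := a) (b := b) (x := z) (y := q) (z := q')
            (h.eab z hzP hza hzb) (h.eab q hqP hqa hqb)
            (h.eab q' hq'S.1 hq'a hq'b).le (ns' t.1) r1
          exact ps' this
        · -- around `d`, with base `a`
          have e1 : 0 < D (-s) a d z := by
            rw [D_neg]; linarith [ps (h.eda z hzP hzd hza)]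
          have e2 : 0 < D (-s) a d q := by
            rw [D_neg]; linarith [ps (h.eda q hqP hqd hqa)]
          have e3 : 0 < D (-s) a d q' := by
            rw [D_neg]; linarith [ps (h.eda q' hq'S.1 hq'd hq'a)]
          have e4 : 0 < D (-s) d z q := by
            rw [D_neg]; linarith [n2 (n2 (n2 (n1 t.2)))]
          have e5 : 0 < D (-s) d q q' := by
            rw [D_neg]; linarith [ps r2]
          have := trans_pos (s := -s) (a := a) (b := d) (x := z) (y := q) (z := q')
            e1 e2 e3.le e4 e5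
          rw [D_neg] at this
          have h7 : D s d z q' < 0 := by linarith
          exact n2 (n2 (n2 (n2 h7)))

lemma exists_cen_side (h : Conf s P a b c d) (ht : Thin m P) (hP : P.card = 2 * m + 1)
    {i : ℕ} (hi : i ≤ m) (hH : i + 1 ≤ (Hc s b d P).card) :
    ∃ q, Cen s b d P q ∧ (CC s b d P q).card = i := by
  classical
  obtain ⟨C, hC, hCc, q, hqP, hqC, hq1, hq2, hq3, hq4⟩ := nest h ht hP i hi hH
  have hqb : q ≠ b := by rintro rfl; simp at hq1
  have hqd : q ≠ d := by rintro rfl; simp at hq1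
  have hCC : CC s b d P q = C := by
    ext z
    rw [mem_CC]
    constructor
    · rintro ⟨h1, h2, h3⟩
      by_contra hcon
      have hzb : z ≠ b := by rintro rfl; simp at h2
      have hzq : z ≠ q := by rintro rfl; simp at h2
      linarith [hq2 z h1 hcon hzb hzq]
    · intro hz
      exact ⟨(mem_Hc.1 (hC hz)).1, hq4 z hz⟩
  refine ⟨q, ⟨hqP, hqb, hqd, ?_⟩, by rw [hCC, hCc]⟩
  intro z hz h1 h2 h3
  by_cases hzC : z ∈ C
  · right; rw [hCC]; exact hzC
  · left
    rw [mem_AA]
    exact ⟨hz, hq2 z hz hzC h2 h1, hq3 z hz hzC h3 h1⟩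

lemma exists_cen (h : Conf s P a b c d) (ht : Thin m P) (hP : P.card = 2 * m + 1)
    (hm : 4 ≤ m) {i : ℕ} (hi : i ≤ m) (hi' : m ≤ i + 2) :
    ∃ q, Cen s b d P q ∧ (CC s b d P q).card = i := by
  have hH := card_Hc h
  by_cases h1 : i + 1 ≤ (Hc s b d P).card
  · exact exists_cen_side h ht hP hi h1
  · obtain ⟨q, hq, hc⟩ := exists_cen_side h.rot.rot ht hP (i := 2 * m - 2 - i) (by omega)
      (by omega)
    refine ⟨q, hq.swap, ?_⟩
    have := hq.swap.card h.hb h.hd h.bd
    rw [CC_swap] at hc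
    omega

/-- **quadrilateral hull** -/
theorem quad_false (h : Conf s P a b c d) (ht : Thin m P) (hP : P.card = 2 * m + 1)
    (hm : 4 ≤ m) : False := by
  obtain ⟨q0, h0, c0⟩ := exists_cen h ht hP hm (i := m - 2) (by omega) (by omega)
  obtain ⟨q1, h1, c1⟩ := exists_cen h ht hP hm (i := m - 1) (by omega) (by omega)
  obtain ⟨q2, h2, c2⟩ := exists_cen h ht hP hm (i := m) (by omega) (by omega)
  have t0 := types h ht hP hm h0 (by omega) (by omega)
  have t1 := types h ht hP hm h1 (by omega) (by omega)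
  have t2 := types h ht hP hm h2 (by omega) (by omega)
  have hf := fun (x y : ℝ × ℝ) (hx : Cen s b d P x) (hy : Cen s b d P y) =>
    fin_false h ht hP hm hx hy
  have hf' := fun (x y : ℝ × ℝ) (hx : Cen s b d P x) (hy : Cen s b d P y) =>
    fin_false h.refl ht hP hm hx.refl hy.refl
  simp only [CC_refl] at hf'
  rcases t0 with t0 | t0 <;> rcases t1 with t1 | t1 <;> rcases t2 with t2 | t2
  · exact hf q1 q0 h1 h0 (by omega) (by omega) (by omega) t1 t0
  · exact hf q1 q0 h1 h0 (by omega) (by omega) (by omega) t1 t0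
  · exact hf q2 q0 h2 h0 (by omega) (by omega) (by omega) t2 t0
  · exact hf' q2 q1 h2 h1 (by omega) (by omega) (by omega) t2 t1
  · exact hf q2 q1 h2 h1 (by omega) (by omega) (by omega) t2 t1
  · exact hf' q2 q0 h2 h0 (by omega) (by omega) (by omega) t2 t0
  · exact hf' q1 q0 h1 h0 (by omega) (by omega) (by omega) t1 t0
  · exact hf' q1 q0 h1 h0 (by omega) (by omega) (by omega) t1 t0

end nest

end Pool.Agent.G5.Quad
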